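import Pool.Agent.Lib.MP_3d2465_an.GM

/-!
Continuity of the geometric mean on a finite-dimensional normed space, and continuity of fields of
forms on a manifold.
-/

namespace Pool.Agent.Lib.MP_3d2465_an

open Filter Topology

section model

variable {E : Type*} [NormedAddCommGroup E] [NormedSpace ℝ E] [FiniteDimensional ℝ E]

theorem PD.exists_lower (B : E →L[ℝ] E →L[ℝ] ℝ) (h : PD (fun v w => B v w)) :
    ∃ c : ℝ, 0 < c ∧ ∀ v, c * ‖v‖ ^ 2 ≤ B v v := by
  have hcont : Continuous fun v : E => B v v := by fun_prop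
  have hcomp : IsCompact (Metric.sphere (0 : E) 1) := isCompact_sphere _ _
  rcases (Metric.sphere (0 : E) 1).eq_empty_or_nonempty with hemp | hne
  · refine ⟨1, one_pos, fun v => ?_⟩
    have hv : v = 0 := by
      by_contra hv
      have : (‖v‖⁻¹ • v) ∈ Metric.sphere (0 : E) 1 := by
        simp [norm_smul, inv_mul_cancel₀ (norm_ne_zero_iff.mpr hv)]
      rw [hemp] at this
      exact this
    subst hv
    simp
  · obtain ⟨v₀, hv₀, hmin⟩ := hcomp.exists_isMinOn hne hcont.continuousOn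
    have hv₀0 : v₀ ≠ 0 := by
      intro h0
      rw [h0] at hv₀
      simp at hv₀
    refine ⟨B v₀ v₀, h.pos v₀ hv₀0, fun v => ?_⟩
    rcases eq_or_ne v 0 with rfl | hv
    · simp
    · have hn : 0 < ‖v‖ := norm_pos_iff.mpr hv
      have hmem : (‖v‖⁻¹ • v) ∈ Metric.sphere (0 : E) 1 := by
        simp [norm_smul, inv_mul_cancel₀ hn.ne']
      have h1 : B v₀ v₀ ≤ B (‖v‖⁻¹ • v) (‖v‖⁻¹ • v) := hmin hmem
      have h2 : B (‖v‖⁻¹ • v) (‖v‖⁻¹ • v) = (‖v‖⁻¹) ^ 2 * B v v := by
        simp; ring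
      rw [h2] at h1
      have h3 : B v₀ v₀ * ‖v‖ ^ 2 ≤ (‖v‖⁻¹) ^ 2 * B v v * ‖v‖ ^ 2 :=
        mul_le_mul_of_nonneg_right h1 (by positivity)
      have h4 : (‖v‖⁻¹) ^ 2 * B v v * ‖v‖ ^ 2 = B v v := by
        field_simp
      linarith

theorem eventually_close {α : Type*} {l : Filter α} {P : α → E →L[ℝ] E →L[ℝ] ℝ}
    {P₀ : E →L[ℝ] E →L[ℝ] ℝ} (hP : Tendsto P l (𝓝 P₀)) (h₀ : PD (fun v w => P₀ v w))
    {a : ℝ} (ha : 1 < a) :
    ∀ᶠ t in l, ∀ v, P t v v ≤ a * P₀ v v ∧ P₀ v v ≤ a * P t v v := by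
  obtain ⟨c, hc, hlow⟩ := PD.exists_lower P₀ h₀
  -- tolerance
  have ha0 : 0 < a := by linarith
  set δ : ℝ := 1 - a⁻¹ with hδ
  have hδ0 : 0 < δ := by
    rw [hδ]; have := inv_lt_one_of_one_lt₀ ha; linarith
  have hδ1 : 1 + δ ≤ a := by
    have h1 : a * (1 + δ) = 2 * a - 1 := by rw [hδ]; field_simp; ring
    nlinarith [sq_nonneg (a - 1)]
  have hδ2 : a * (1 - δ) = 1 := by rw [hδ]; field_simp; ring
  have hcδ : 0 < c * δ := by positivity
  have hev : ∀ᶠ t in l, ‖P t - P₀‖ < c * δ := by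
    have h1 : Tendsto (fun t => ‖P t - P₀‖) l (𝓝 0) :=
      (tendsto_iff_norm_sub_tendsto_zero (E := E →L[ℝ] E →L[ℝ] ℝ) (f := P) (b := P₀)).mp hP
    exact h1.eventually (gt_mem_nhds hcδ)
  filter_upwards [hev] with t ht v
  have h1 : |P t v v - P₀ v v| ≤ δ * P₀ v v := by
    have e1 : P t v v - P₀ v v = (P t - P₀) v v := by simp
    rw [e1]
    calc |(P t - P₀) v v| = ‖(P t - P₀) v v‖ := rfl
      _ ≤ ‖P t - P₀‖ * ‖v‖ * ‖v‖ := ContinuousLinearMap.le_opNorm₂ _ _ _
      _ ≤ (c * δ) * ‖v‖ * ‖v‖ := by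
          gcongr
      _ = δ * (c * ‖v‖ ^ 2) := by ring
      _ ≤ δ * P₀ v v := by gcongr; exact hlow v
  have h2 := h₀.nonneg v
  rw [abs_le] at h1
  constructor
  · nlinarith [h1.1, h1.2]
  · have h3 : (1 - δ) * P₀ v v ≤ P t v v := by linarith [h1.1]
    calc P₀ v v = a * (1 - δ) * P₀ v v := by rw [hδ2, one_mul]
      _ = a * ((1 - δ) * P₀ v v) := by ring
      _ ≤ a * P t v v := by gcongr

/-- continuity from closeness of quadratic forms -/
theorem continuousWithinAt_of_close {α : Type*} [TopologicalSpace α] {s : Set α} {x₀ : α}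
    {X : α → E →L[ℝ] E →L[ℝ] ℝ} (h₀ : PD (fun v w => X x₀ v w))
    (hPD : ∀ᶠ y in 𝓝[s] x₀, PD (fun v w => X y v w))
    (hclose : ∀ a : ℝ, 1 < a → ∀ᶠ y in 𝓝[s] x₀, ∀ v,
      X y v v ≤ a * X x₀ v v ∧ X x₀ v v ≤ a * X y v v) :
    ContinuousWithinAt X s x₀ := by
  rw [continuousWithinAt_clm_apply]
  intro v
  rw [continuousWithinAt_clm_apply]
  intro w
  have hdiag : ∀ v, ContinuousWithinAt (fun y => X y v v) s x₀ := by
    intro v
    rw [ContinuousWithinAt, Metric.tendsto_nhds]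
    intro ε hε
    have hnn := h₀.nonneg v
    set a : ℝ := 1 + ε / (2 * (X x₀ v v + 1)) with ha
    have ha1 : 1 < a := by rw [ha]; have : 0 < ε / (2 * (X x₀ v v + 1)) := by positivity
                           linarith
    have hsmall : (a - 1) * X x₀ v v < ε := by
      have : (a - 1) * X x₀ v v = ε * (X x₀ v v / (2 * (X x₀ v v + 1))) := by
        rw [ha]; field_simp; ring
      rw [this]
      have h2 : X x₀ v v / (2 * (X x₀ v v + 1)) < 1 := by
        rw [div_lt_one (by positivity)]; linarith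
      calc ε * (X x₀ v v / (2 * (X x₀ v v + 1))) < ε * 1 := by gcongr
        _ = ε := mul_one _
    filter_upwards [hclose a ha1] with y hy
    obtain ⟨h1, h2⟩ := hy v
    rw [Real.dist_eq, abs_lt]
    constructor
    · -- X y ≥ X₀ / a ≥ X₀ - (a-1) X₀
      have h3 : (a - 1) * X y v v ≤ (a - 1) * (a * X x₀ v v) :=
        mul_le_mul_of_nonneg_left h1 (by linarith)
      by_contra hcon
      push Not at hcon
      -- X y ≤ X₀ - ε
      have h4 : X y v v ≤ X x₀ v v := by linarith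
      have h5 : (a - 1) * X y v v ≤ (a - 1) * X x₀ v v :=
        mul_le_mul_of_nonneg_left h4 (by linarith)
      nlinarith
    · nlinarith
  have hpol : ∀ᶠ y in 𝓝[s] x₀, X y v w = (X y (v + w) (v + w) - X y v v - X y w w) / 2 := by
    filter_upwards [hPD] with y hy
    have h1 := hy.symm v w
    simp only [map_add, add_apply]
    rw [h1]; ring
  have hpol₀ : X x₀ v w = (X x₀ (v + w) (v + w) - X x₀ v v - X x₀ w w) / 2 := by
    have h1 := h₀.symm v w
    simp only [map_add, add_apply]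
    rw [h1]; ring
  refine ContinuousWithinAt.congr_of_eventuallyEq ?_ hpol hpol₀
  exact (((hdiag (v + w)).sub (hdiag v)).sub (hdiag w)).div_const 2

theorem continuousWithinAt_gm {α : Type*} [TopologicalSpace α] {s : Set α} {x₀ : α}
    {P Q X : α → E →L[ℝ] E →L[ℝ] ℝ} (hP : ContinuousWithinAt P s x₀)
    (hQ : ContinuousWithinAt Q s x₀)
    (h₀ : GM (fun v w => P x₀ v w) (fun v w => Q x₀ v w) (fun v w => X x₀ v w))
    (hev : ∀ᶠ y in 𝓝[s] x₀,
      GM (fun v w => P y v w) (fun v w => Q y v w) (fun v w => X y v w)) :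
    ContinuousWithinAt X s x₀ := by
  refine continuousWithinAt_of_close h₀.pdX (hev.mono fun y hy => hy.pdX) (fun a ha => ?_)
  filter_upwards [eventually_close hP h₀.pdP ha, eventually_close hQ h₀.pdQ ha, hev]
    with y h1 h2 h3 v
  have ha0 : 0 ≤ a := by linarith
  have hs : √a * √a = a := Real.mul_self_sqrt ha0
  constructor
  · have := h3.mono h₀ (fun v => (h1 v).1) (fun v => (h2 v).1) v
    rwa [hs] at this
  · have := h₀.mono h3 (fun v => (h1 v).2) (fun v => (h2 v).2) v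
    rwa [hs] at this

end model

end Pool.Agent.Lib.MP_3d2465_an
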