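import Pool.Agent.Lib.MP_3d2465_an.Cont

/-!
Continuous fields of forms on the tangent bundle over a subset of a manifold.
-/

namespace Pool.Agent.Lib.MP_3d2465_an

open Filter Topology Bundle Manifold ContinuousLinearMap
open scoped ContDiff

variable {E : Type*} [NormedAddCommGroup E] [NormedSpace ℝ E]
  {M : Type*} [TopologicalSpace M] [ChartedSpace E M] [IsManifold 𝓘(ℝ, E) ∞ M]

/-- The field of bilinear forms `Q` is continuous over `Λ`. -/
def ContField (Λ : Set M)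
    (Q : ∀ x : M, TangentSpace 𝓘(ℝ, E) x →L[ℝ] TangentSpace 𝓘(ℝ, E) x →L[ℝ] ℝ) : Prop :=
  ContinuousOn (fun x ↦ (TotalSpace.mk' (E →L[ℝ] E →L[ℝ] ℝ) x (Q x) :
    TotalSpace (E →L[ℝ] E →L[ℝ] ℝ)
      (fun x : M ↦ TangentSpace 𝓘(ℝ, E) x →L[ℝ] TangentSpace 𝓘(ℝ, E) x →L[ℝ] ℝ))) Λ

/-- the form `Q y` read in the trivialisation at `x₀` -/
noncomputable def coordForm (x₀ : M)
    (Q : ∀ x : M, TangentSpace 𝓘(ℝ, E) x →L[ℝ] TangentSpace 𝓘(ℝ, E) x →L[ℝ] ℝ) (y : M) :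
    E →L[ℝ] E →L[ℝ] ℝ :=
  inCoordinates E (TangentSpace 𝓘(ℝ, E)) (E →L[ℝ] ℝ)
    (fun x : M ↦ TangentSpace 𝓘(ℝ, E) x →L[ℝ] ℝ) x₀ y x₀ y (Q y)

theorem contField_iff {Λ : Set M}
    {Q : ∀ x : M, TangentSpace 𝓘(ℝ, E) x →L[ℝ] TangentSpace 𝓘(ℝ, E) x →L[ℝ] ℝ} :
    ContField Λ Q ↔ ∀ x₀ ∈ Λ, ContinuousWithinAt (coordForm x₀ Q) Λ x₀ := by
  unfold ContField ContinuousOn
  refine forall₂_congr fun x₀ _ => ?_
  rw [continuousWithinAt_hom_bundle]
  constructor
  · rintro ⟨-, h⟩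
    exact h
  · intro h
    exact ⟨continuousWithinAt_id, h⟩

theorem coordForm_apply {x₀ y : M} (hy : y ∈ (chartAt E x₀).source)
    (Q : ∀ x : M, TangentSpace 𝓘(ℝ, E) x →L[ℝ] TangentSpace 𝓘(ℝ, E) x →L[ℝ] ℝ) (v w : E) :
    coordForm x₀ Q y v w =
      Q y ((trivializationAt E (TangentSpace 𝓘(ℝ, E)) x₀).symm y v)
        ((trivializationAt E (TangentSpace 𝓘(ℝ, E)) x₀).symm y w) := by
  unfold coordForm
  rw [inCoordinates_apply_eq₂ (by simpa using hy) (by simpa using hy) (by simp)]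
  simp

/-- the inverse of the trivialisation at `x₀`, as an equivalence on the fibre over `y` -/
noncomputable def tequiv (x₀ y : M) (hy : y ∈ (chartAt E x₀).source) :
    E ≃L[ℝ] TangentSpace 𝓘(ℝ, E) y :=
  ((trivializationAt E (TangentSpace 𝓘(ℝ, E)) x₀).continuousLinearEquivAt ℝ y
    (by simpa using hy)).symm

theorem tequiv_apply {x₀ y : M} (hy : y ∈ (chartAt E x₀).source) (v : E) :
    tequiv x₀ y hy v = (trivializationAt E (TangentSpace 𝓘(ℝ, E)) x₀).symm y v := by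
  rfl

theorem coordForm_apply' {x₀ y : M} (hy : y ∈ (chartAt E x₀).source)
    (Q : ∀ x : M, TangentSpace 𝓘(ℝ, E) x →L[ℝ] TangentSpace 𝓘(ℝ, E) x →L[ℝ] ℝ) (v w : E) :
    coordForm x₀ Q y v w = Q y (tequiv x₀ y hy v) (tequiv x₀ y hy w) := by
  rw [coordForm_apply hy, tequiv_apply, tequiv_apply]

theorem contField_gm [FiniteDimensional ℝ E] {Λ : Set M}
    {P Q X : ∀ x : M, TangentSpace 𝓘(ℝ, E) x →L[ℝ] TangentSpace 𝓘(ℝ, E) x →L[ℝ] ℝ}
    (hP : ContField Λ P) (hQ : ContField Λ Q)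
    (h : ∀ x ∈ Λ, GM (fun v w => P x v w) (fun v w => Q x v w) (fun v w => X x v w)) :
    ContField Λ X := by
  rw [contField_iff] at hP hQ ⊢
  intro x₀ hx₀
  have key : ∀ y ∈ Λ, y ∈ (chartAt E x₀).source →
      GM (fun v w => coordForm x₀ P y v w) (fun v w => coordForm x₀ Q y v w)
        (fun v w => coordForm x₀ X y v w) := by
    intro y hy hys
    have h1 := (h y hy).comap (tequiv x₀ y hys).toLinearEquiv
    simp only [coordForm_apply' hys]
    exact h1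
  refine continuousWithinAt_gm (hP x₀ hx₀) (hQ x₀ hx₀) (key x₀ hx₀ (mem_chart_source _ _)) ?_
  filter_upwards [self_mem_nhdsWithin,
    mem_nhdsWithin_of_mem_nhds ((chartAt E x₀).open_source.mem_nhds (mem_chart_source E x₀))]
    with y hy hys
  exact key y hy hys

/-- pullback of a continuous field of forms by a continuous bundle map is continuous -/
theorem contField_pullback_general [FiniteDimensional ℝ E] {Λ : Set M} {f : M → M}
    (hfc : ContinuousOn f Λ) (hmap : Set.MapsTo f Λ Λ)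
    {A : ∀ x : M, TangentSpace 𝓘(ℝ, E) x →L[ℝ] TangentSpace 𝓘(ℝ, E) (f x)}
    (hA : ∀ x₀ ∈ Λ, ContinuousWithinAt (fun y => inCoordinates E (TangentSpace 𝓘(ℝ, E)) E
      (TangentSpace 𝓘(ℝ, E)) x₀ y (f x₀) (f y) (A y)) Λ x₀)
    {P Q : ∀ x : M, TangentSpace 𝓘(ℝ, E) x →L[ℝ] TangentSpace 𝓘(ℝ, E) x →L[ℝ] ℝ}
    (hQ : ContField Λ Q) (hP : ∀ x ∈ Λ, ∀ v w, P x v w = Q (f x) (A x v) (A x w)) :
    ContField Λ P := by
  rw [contField_iff] at hQ ⊢
  intro x₀ hx₀
  set a : M → E →L[ℝ] E := fun y => inCoordinates E (TangentSpace 𝓘(ℝ, E)) E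
      (TangentSpace 𝓘(ℝ, E)) x₀ y (f x₀) (f y) (A y) with ha
  have hfx : ContinuousWithinAt f Λ x₀ := hfc x₀ hx₀
  have key : ∀ y ∈ Λ, y ∈ (chartAt E x₀).source → f y ∈ (chartAt E (f x₀)).source → ∀ v w,
      coordForm x₀ P y v w = coordForm (f x₀) Q (f y) (a y v) (a y w) := by
    intro y hy hys hfys v w
    have hav : ∀ v, tequiv (f x₀) (f y) hfys (a y v) = A y (tequiv x₀ y hys v) := by
      intro v
      rw [ha]
      simp only
      rw [inCoordinates_eq (by simpa using hys) (by simpa using hfys)]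
      exact ContinuousLinearEquiv.symm_apply_apply _ _
    rw [coordForm_apply' hys, coordForm_apply' hfys, hP y hy, hav, hav]
  rw [continuousWithinAt_clm_apply]
  intro v
  rw [continuousWithinAt_clm_apply]
  intro w
  have hQf : ContinuousWithinAt (fun y => coordForm (f x₀) Q (f y)) Λ x₀ :=
    (hQ (f x₀) (hmap hx₀)).comp hfx hmap
  have hcont : ContinuousWithinAt
      (fun y => coordForm (f x₀) Q (f y) (a y v) (a y w)) Λ x₀ := by
    have h1 : ContinuousWithinAt (fun y => a y v) Λ x₀ :=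
      (continuousWithinAt_clm_apply.mp (hA x₀ hx₀)) v
    have h2 : ContinuousWithinAt (fun y => a y w) Λ x₀ :=
      (continuousWithinAt_clm_apply.mp (hA x₀ hx₀)) w
    exact (hQf.clm_apply h1).clm_apply h2
  refine hcont.congr_of_eventuallyEq ?_ (key x₀ hx₀ (mem_chart_source _ _)
    (mem_chart_source _ _) v w)
  filter_upwards [self_mem_nhdsWithin,
    mem_nhdsWithin_of_mem_nhds ((chartAt E x₀).open_source.mem_nhds (mem_chart_source E x₀)),
    hfx.eventually ((chartAt E (f x₀)).open_source.mem_nhds (mem_chart_source E (f x₀)))]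
    with y hy hys hfys
  exact key y hy hys hfys v w

theorem ContField.congr {Λ : Set M}
    {P Q : ∀ x : M, TangentSpace 𝓘(ℝ, E) x →L[ℝ] TangentSpace 𝓘(ℝ, E) x →L[ℝ] ℝ}
    (hP : ContField Λ P) (h : ∀ x ∈ Λ, Q x = P x) : ContField Λ Q := by
  unfold ContField at *
  exact hP.congr (fun x hx => by simp only [h x hx])

theorem ContField.add [FiniteDimensional ℝ E] {Λ : Set M}
    {P Q R : ∀ x : M, TangentSpace 𝓘(ℝ, E) x →L[ℝ] TangentSpace 𝓘(ℝ, E) x →L[ℝ] ℝ}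
    (hP : ContField Λ P) (hQ : ContField Λ Q)
    (hR : ∀ x ∈ Λ, ∀ v w, R x v w = P x v w + Q x v w) : ContField Λ R := by
  rw [contField_iff] at hP hQ ⊢
  intro x₀ hx₀
  rw [continuousWithinAt_clm_apply]
  intro v
  rw [continuousWithinAt_clm_apply]
  intro w
  have h1 := (continuousWithinAt_clm_apply.mp
    ((continuousWithinAt_clm_apply.mp (hP x₀ hx₀)) v)) w
  have h2 := (continuousWithinAt_clm_apply.mp
    ((continuousWithinAt_clm_apply.mp (hQ x₀ hx₀)) v)) w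
  have key : ∀ y ∈ Λ, y ∈ (chartAt E x₀).source →
      coordForm x₀ R y v w = coordForm x₀ P y v w + coordForm x₀ Q y v w := by
    intro y hy hys
    rw [coordForm_apply' hys, coordForm_apply' hys, coordForm_apply' hys, hR y hy]
  refine (h1.add h2).congr_of_eventuallyEq ?_ (key x₀ hx₀ (mem_chart_source _ _))
  filter_upwards [self_mem_nhdsWithin,
    mem_nhdsWithin_of_mem_nhds ((chartAt E x₀).open_source.mem_nhds (mem_chart_source E x₀))]
    with y hy hys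
  exact key y hy hys

/-- pullback by a `C^1` map -/
theorem contField_pullback [FiniteDimensional ℝ E] {Λ : Set M} {f : M → M}
    (hf : ContMDiff 𝓘(ℝ, E) 𝓘(ℝ, E) 1 f) (hmap : Set.MapsTo f Λ Λ)
    {P Q : ∀ x : M, TangentSpace 𝓘(ℝ, E) x →L[ℝ] TangentSpace 𝓘(ℝ, E) x →L[ℝ] ℝ}
    (hQ : ContField Λ Q)
    (hP : ∀ x ∈ Λ, ∀ v w, P x v w =
      Q (f x) (mfderiv 𝓘(ℝ, E) 𝓘(ℝ, E) f x v) (mfderiv 𝓘(ℝ, E) 𝓘(ℝ, E) f x w)) :
    ContField Λ P := by
  refine contField_pullback_general (A := fun x => mfderiv 𝓘(ℝ, E) 𝓘(ℝ, E) f x)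
    hf.continuous.continuousOn hmap ?_ hQ hP
  intro x₀ hx₀
  have h := (hf x₀).mfderiv_const (m := 0) (by simp)
  exact h.continuousAt.continuousWithinAt

end Pool.Agent.Lib.MP_3d2465_an
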