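import Pool.Agent.Lib.MP_3d2465_an.Gram

/-!
The geometric mean of two positive definite forms, and the halving lemma.
-/

namespace Pool.Agent.Lib.MP_3d2465_an

open Finset

variable {V : Type*} [AddCommGroup V] [Module ℝ V] {P Q X Y a b c : V → V → ℝ}

/-- `X` is the geometric mean of `P` and `Q` -/
structure GM (P Q X : V → V → ℝ) : Prop where
  pdP : PD P
  pdQ : PD Q
  pdX : PD X
  ex : ∃ S : V →ₗ[ℝ] V, (∀ v w, X v w = P (S v) w) ∧ (∀ v w, Q v w = X (S v) w)

/-- existence of the geometric mean -/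
theorem exists_gm [FiniteDimensional ℝ V] (hP : PD P) (hQ : PD Q) : ∃ X, GM P Q X := by
  classical
  obtain ⟨b, μ, hμ, hPb, hQb⟩ := exists_diag hP hQ
  let c : V → Fin (Module.finrank ℝ V) → ℝ := fun v i => b.repr v i
  let X : V → V → ℝ := fun v w => ∑ i, c v i * √(μ i) * c w i
  let S : V →ₗ[ℝ] V := b.constr ℝ (fun i => √(μ i) • b i)
  have hS : ∀ v i, b.repr (S v) i = √(μ i) * b.repr v i := by
    intro v i
    have h1 : S v = ∑ j, b.repr v j • (√(μ j) • b j) := by
      simp [S, Module.Basis.constr_apply_fintype]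
    rw [h1]
    simp only [map_sum, map_smul, Module.Basis.repr_self, Finsupp.coe_finsetSum,
      Finset.sum_apply, Finsupp.smul_apply, smul_eq_mul]
    rw [Finset.sum_eq_single i]
    · simp [mul_comm]
    · intro j _ hj
      simp [Finsupp.single_eq_of_ne' hj]
    · simp
  have hPD : PD X :=
    { add := fun u v w => by
        simp only [X, c, map_add, Finsupp.add_apply]
        rw [← Finset.sum_add_distrib]
        exact Finset.sum_congr rfl fun i _ => by ring
      smul := fun r u w => by
        simp only [X, c, map_smul, Finsupp.smul_apply, smul_eq_mul]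
        rw [Finset.mul_sum]
        exact Finset.sum_congr rfl fun i _ => by ring
      symm := fun u v => by
        simp only [X, c]
        exact Finset.sum_congr rfl fun i _ => by ring
      pos := fun v hv => by
        simp only [X, c]
        have h1 : ∀ i, 0 ≤ b.repr v i * √(μ i) * b.repr v i := fun i => by
          have : b.repr v i * √(μ i) * b.repr v i = √(μ i) * (b.repr v i) ^ 2 := by ring
          rw [this]; positivity
        obtain ⟨i, hi⟩ : ∃ i, b.repr v i ≠ 0 := by
          by_contra hcon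
          push Not at hcon
          apply hv
          apply b.repr.injective
          ext i
          simpa using hcon i
        refine Finset.sum_pos' (fun i _ => h1 i) ⟨i, Finset.mem_univ _, ?_⟩
        have : b.repr v i * √(μ i) * b.repr v i = √(μ i) * (b.repr v i) ^ 2 := by ring
        rw [this]
        have := Real.sqrt_pos.mpr (hμ i)
        positivity }
  refine ⟨X, hP, hQ, hPD, S, ?_, ?_⟩
  · intro v w
    rw [hPb.apply hP]
    simp only [X, c]
    refine Finset.sum_congr rfl fun i _ => ?_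
    rw [hS]; ring
  · intro v w
    rw [hQb.apply hQ]
    simp only [X, c]
    refine Finset.sum_congr rfl fun i _ => ?_
    rw [hS]
    have := Real.mul_self_sqrt (hμ i).le
    calc b.repr v i * μ i * b.repr w i
        = b.repr v i * (√(μ i) * √(μ i)) * b.repr w i := by rw [this]
      _ = _ := by ring

theorem GM.symm [FiniteDimensional ℝ V] (h : GM P Q X) : GM Q P X := by
  obtain ⟨hP, hQ, hX, S, h1, h2⟩ := h
  have hinj : Function.Injective S := by
    rw [injective_iff_map_eq_zero]
    intro v hv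
    by_contra hne
    have := hX.pos v hne
    rw [h1, hv, hP.zero_left] at this
    exact lt_irrefl _ this
  let e : V ≃ₗ[ℝ] V := LinearEquiv.ofInjectiveEndo S hinj
  have he : ∀ v, S (e.symm v) = v := fun v => e.apply_symm_apply v
  refine ⟨hQ, hP, hX, e.symm, ?_, ?_⟩
  · intro v w
    rw [LinearEquiv.coe_coe, h2, he]
  · intro v w
    rw [LinearEquiv.coe_coe, h1, he]

theorem GM.comap {W : Type*} [AddCommGroup W] [Module ℝ W] (h : GM P Q X) (T : W ≃ₗ[ℝ] V) :
    GM (fun v w => P (T v) (T w)) (fun v w => Q (T v) (T w)) (fun v w => X (T v) (T w)) := by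
  obtain ⟨hP, hQ, hX, S, h1, h2⟩ := h
  refine ⟨hP.comap T.toLinearMap T.injective, hQ.comap T.toLinearMap T.injective,
    hX.comap T.toLinearMap T.injective, T.symm.toLinearMap ∘ₗ S ∘ₗ T.toLinearMap, ?_, ?_⟩
  · intro v w
    simp [h1 (T v) (T w)]
  · intro v w
    simp [h2 (T v) (T w)]

/-- KEY LEMMA (halving). -/
theorem GM.vol2_le [FiniteDimensional ℝ V] (hX : GM b a X) (hY : GM b c Y) {k : ℕ} {α : ℝ}
    (h : ∀ v : Fin k → V, vol2 a v ≤ α * vol2 c v) (v : Fin k → V) :
    vol2 X v ≤ √α * vol2 Y v := by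
  classical
  obtain ⟨hb, ha, hX', S, hS1, hS2⟩ := hX
  obtain ⟨-, hc, hY', R, hR1, hR2⟩ := hY
  obtain ⟨e, μ, hμ, hYe, hXe⟩ := exists_diag hY' hX'
  -- `X (e i) w = μ i * Y (e i) w`
  have h1 : ∀ i w, X (e i) w = μ i * Y (e i) w := by
    intro i w
    rw [hXe.apply hX', hYe.apply hY']
    simp only [Module.Basis.repr_self, mul_one]
    rw [Finset.sum_eq_single i, Finset.sum_eq_single i]
    · simp
    · intro j _ hj; simp [Finsupp.single_eq_of_ne hj]
    · simp
    · intro j _ hj; simp [Finsupp.single_eq_of_ne hj]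
    · simp
  have h2 : ∀ i, S (e i) = μ i • R (e i) := by
    intro i
    apply hb.ext_right
    intro w
    rw [← hS1, h1, hb.smul, ← hR1]
  have h3 : ∀ i j, a (e i) (e j) = μ i * μ j * c (e i) (e j) := by
    intro i j
    calc a (e i) (e j) = X (S (e i)) (e j) := hS2 _ _
      _ = X (e j) (S (e i)) := hX'.symm _ _
      _ = b (S (e j)) (S (e i)) := hS1 _ _
      _ = μ j * (μ i * b (R (e j)) (R (e i))) := by
          rw [h2, h2, hb.smul, hb.smul_right]
      _ = μ i * μ j * b (R (e j)) (R (e i)) := by ring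
      _ = μ i * μ j * Y (e j) (R (e i)) := by rw [hR1]
      _ = μ i * μ j * Y (R (e i)) (e j) := by rw [hY'.symm]
      _ = μ i * μ j * c (e i) (e j) := by rw [hR2]
  refine vol2_le_of_diag hX' hY' hXe hYe (fun φ hφ => ?_) v
  have hprod : 0 < ∏ i, μ (φ i) := Finset.prod_pos fun i _ => hμ _
  have h4 : vol2 a (fun i => e (φ i)) = (∏ i, μ (φ i)) ^ 2 * vol2 c (fun i => e (φ i)) := by
    unfold vol2
    have e1 : (Matrix.of fun i j : Fin k => a (e (φ i)) (e (φ j)))
        = Matrix.of fun i j : Fin k => μ (φ i) *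
          (Matrix.of fun i j : Fin k => μ (φ j) *
            (Matrix.of fun i j : Fin k => c (e (φ i)) (e (φ j))) i j) i j := by
      funext i j
      simp only [Matrix.of_apply]
      rw [h3]; ring
    rw [e1, Matrix.det_mul_column, Matrix.det_mul_row]
    ring
  have h5 := h (fun i => e (φ i))
  rw [h4] at h5
  have hcpos : 0 < vol2 c (fun i => e (φ i)) := by
    -- positivity of the Gram determinant of an independent family
    obtain ⟨e', μ', hμ', -, hce'⟩ := exists_diag hc hc
    have hnn := vol2_nonneg hc (fun i => e (φ i))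
    rcases hnn.lt_or_eq with hlt | heq
    · exact hlt
    · exfalso
      -- compare with `Y`
      obtain ⟨e₂, ν, hν, hce, hYe₂⟩ := exists_diag hc hY'
      have hle : vol2 Y (fun i => e (φ i)) ≤
          (∏ _i : Fin k, (∑ j, ν j)) * vol2 c (fun i => e (φ i)) := by
        refine vol2_le_of_diag hY' hc hYe₂ hce (fun ψ _ => ?_) _
        refine Finset.prod_le_prod (fun i _ => (hν _).le) (fun i _ => ?_)
        exact Finset.single_le_sum (f := ν) (fun j _ => (hν j).le) (Finset.mem_univ _)
      rw [← heq, mul_zero, hYe.vol2_basis φ hφ] at hle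
      simp at hle
      linarith
  have h6 : (∏ i, μ (φ i)) ^ 2 ≤ α := le_of_mul_le_mul_right h5 hcpos
  exact Real.le_sqrt_of_sq_le h6

theorem GM.le [FiniteDimensional ℝ V] (hX : GM b a X) (hY : GM b c Y) {α : ℝ}
    (h : ∀ v, a v v ≤ α * c v v) (v : V) :
    X v v ≤ √α * Y v v := by
  have := hX.vol2_le hY (k := 1) (α := α) (fun w => by
    have e1 : w = fun _ => w 0 := by funext i; congr 1; exact Subsingleton.elim _ _
    rw [e1, vol2_one, vol2_one]
    exact h _) (fun _ => v)
  simpa [vol2_one] using this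

theorem PD.eq_of_diag (hX : PD X) (hY : PD Y) (h : ∀ v, X v v = Y v v) (v w : V) :
    X v w = Y v w := by
  have h1 := h (v + w)
  rw [hX.add, hX.add_right, hX.add_right, hY.add, hY.add_right, hY.add_right,
    hX.symm w v, hY.symm w v, h v, h w] at h1
  linarith

theorem GM.unique [FiniteDimensional ℝ V] (hX : GM P Q X) (hY : GM P Q Y) (v w : V) :
    X v w = Y v w := by
  refine hX.pdX.eq_of_diag hY.pdX (fun v => le_antisymm ?_ ?_) v w
  · simpa using hX.le hY (α := 1) (fun v => by simp) v
  · simpa using hY.le hX (α := 1) (fun v => by simp) v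

/-- monotonicity in both arguments -/
theorem GM.mono [FiniteDimensional ℝ V] {P' Q' X' : V → V → ℝ} (h : GM P Q X)
    (h' : GM P' Q' X') {α β : ℝ}
    (hP : ∀ v, P v v ≤ α * P' v v) (hQ : ∀ v, Q v v ≤ β * Q' v v) (v : V) :
    X v v ≤ √α * √β * X' v v := by
  obtain ⟨Y, hY⟩ := exists_gm h.pdP h'.pdQ
  have h1 := h.le hY hQ v
  have h2 := hY.symm.le h'.symm hP v
  calc X v v ≤ √β * Y v v := h1
    _ ≤ √β * (√α * X' v v) := by gcongr
    _ = √α * √β * X' v v := by ring

/-- restriction to a summand -/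
theorem GM.restrict [FiniteDimensional ℝ V] (h : GM P Q X) {E F : Submodule ℝ V}
    (hEF : IsCompl E F) (hP : ∀ u ∈ E, ∀ w ∈ F, P u w = 0) (hQ : ∀ u ∈ E, ∀ w ∈ F, Q u w = 0) :
    (∀ u ∈ E, ∀ w ∈ F, X u w = 0) ∧
      GM (fun v w : F => P v w) (fun v w : F => Q v w) (fun v w : F => X v w) := by
  obtain ⟨pdP, pdQ, pdX, S, h1, h2⟩ := id h
  -- the reflection
  have hF : ∀ w ∈ F, F.projection E hEF.symm w = w := fun w hw =>
    Submodule.projection_apply_of_mem_left hEF.symm hw
  have hE : ∀ u ∈ E, F.projection E hEF.symm u = 0 := fun u hu =>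
    Submodule.projection_apply_of_mem_right hEF.symm hu
  let J : V ≃ₗ[ℝ] V :=
    LinearEquiv.ofInvolutive ((2 : ℝ) • F.projection E hEF.symm - LinearMap.id) (by
      intro v
      have := hF _ (Submodule.projection_apply_mem hEF.symm v)
      simp only [LinearMap.sub_apply, LinearMap.smul_apply, LinearMap.id_apply, map_sub, map_smul,
        this]
      module)
  have hJ : ∀ v, J v = (2 : ℝ) • F.projection E hEF.symm v - v := fun v => rfl
  have hJF : ∀ w ∈ F, J w = w := fun w hw => by rw [hJ, hF w hw]; module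
  have hJE : ∀ u ∈ E, J u = -u := fun u hu => by rw [hJ, hE u hu]; module
  -- every vector decomposes
  have hdec : ∀ v : V, ∃ u ∈ E, ∃ w ∈ F, v = u + w := fun v =>
    ⟨_, Submodule.projection_apply_mem hEF v, _, Submodule.projection_apply_mem hEF.symm v,
      (Submodule.projection_add_projection_eq_self hEF v).symm⟩
  have hinv : ∀ {A : V → V → ℝ}, PD A → (∀ u ∈ E, ∀ w ∈ F, A u w = 0) →
      ∀ v w, A (J v) (J w) = A v w := by
    intro A hA hA0 v w
    obtain ⟨u₁, hu₁, w₁, hw₁, rfl⟩ := hdec v
    obtain ⟨u₂, hu₂, w₂, hw₂, rfl⟩ := hdec w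
    rw [map_add, map_add, hJE _ hu₁, hJE _ hu₂, hJF _ hw₁, hJF _ hw₂]
    simp only [hA.add, hA.add_right, hA.neg_left, hA.neg_right]
    rw [hA0 u₁ hu₁ w₂ hw₂, hA.symm w₁ u₂, hA0 u₂ hu₂ w₁ hw₁]
    ring
  have hXinv : ∀ v w, X (J v) (J w) = X v w := by
    have h3 := h.comap J
    have e1 : (fun v w => P (J v) (J w)) = P := by
      funext v w; exact hinv pdP hP v w
    have e2 : (fun v w => Q (J v) (J w)) = Q := by
      funext v w; exact hinv pdQ hQ v w
    rw [e1, e2] at h3
    exact fun v w => h3.unique h v w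
  have hX0 : ∀ u ∈ E, ∀ w ∈ F, X u w = 0 := by
    intro u hu w hw
    have := hXinv u w
    rw [hJE u hu, hJF w hw, pdX.neg_left] at this
    linarith
  refine ⟨hX0, pdP.comap F.subtype F.injective_subtype, pdQ.comap F.subtype F.injective_subtype,
    pdX.comap F.subtype F.injective_subtype, ?_⟩
  have hSF : ∀ v ∈ F, S v ∈ F := by
    intro v hv
    obtain ⟨u, hu, w, hw, huw⟩ := hdec (S v)
    have h4 : P (S v) u = 0 := by
      rw [← h1, pdX.symm]; exact hX0 u hu v hv
    rw [huw, pdP.add, pdP.symm w u, hP u hu w hw, add_zero] at h4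
    have : u = 0 := by
      by_contra hne
      exact (pdP.pos u hne).ne' h4
    rw [huw, this, zero_add]; exact hw
  refine ⟨S.restrict hSF, ?_, ?_⟩
  · intro v w
    simpa using h1 v w
  · intro v w
    simpa using h2 v w

end Pool.Agent.Lib.MP_3d2465_an
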