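import Mathlib

/-!
Positive definite forms (as bare functions `V → V → ℝ`), their Gram determinants, and
simultaneous diagonalisation.
-/

namespace Pool.Agent.Lib.MP_3d2465_an

open Finset

/-- `B` is a symmetric positive definite bilinear form on `V`. -/
structure PD {V : Type*} [AddCommGroup V] [Module ℝ V] (B : V → V → ℝ) : Prop where
  add : ∀ u v w, B (u + v) w = B u w + B v w
  smul : ∀ (c : ℝ) u w, B (c • u) w = c * B u w
  symm : ∀ u v, B u v = B v u
  pos : ∀ v, v ≠ 0 → 0 < B v v

/-- The Gram determinant of a `k`-tuple `v` for `B`: the square of the `B`-volume of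
`v 0 ∧ ⋯ ∧ v (k-1)`. -/
noncomputable def vol2 {V : Type*} (B : V → V → ℝ) {k : ℕ} (v : Fin k → V) : ℝ :=
  Matrix.det (Matrix.of fun i j => B (v i) (v j))

variable {V : Type*} [AddCommGroup V] [Module ℝ V] {B : V → V → ℝ}

namespace PD

theorem add_right (h : PD B) (u v w : V) : B u (v + w) = B u v + B u w := by
  rw [h.symm, h.add, h.symm v, h.symm w]

theorem smul_right (h : PD B) (c : ℝ) (u w : V) : B u (c • w) = c * B u w := by
  rw [h.symm, h.smul, h.symm w]

theorem zero_left (h : PD B) (w : V) : B 0 w = 0 := by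
  have := h.smul 0 0 w
  simpa using this

theorem zero_right (h : PD B) (w : V) : B w 0 = 0 := by
  rw [h.symm, h.zero_left]

theorem neg_left (h : PD B) (v w : V) : B (-v) w = - B v w := by
  have := h.smul (-1) v w
  simpa using this

theorem neg_right (h : PD B) (v w : V) : B v (-w) = - B v w := by
  rw [h.symm, h.neg_left, h.symm]

theorem sub_left (h : PD B) (u v w : V) : B (u - v) w = B u w - B v w := by
  rw [sub_eq_add_neg, h.add, h.neg_left]; ring

theorem nonneg (h : PD B) (v : V) : 0 ≤ B v v := by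
  rcases eq_or_ne v 0 with rfl | hv
  · rw [h.zero_left]
  · exact (h.pos v hv).le

theorem sum_left (h : PD B) {ι : Type*} (s : Finset ι) (f : ι → V) (w : V) :
    B (∑ i ∈ s, f i) w = ∑ i ∈ s, B (f i) w := by
  classical
  induction s using Finset.induction_on with
  | empty => simp [h.zero_left]
  | insert a s ha ih => rw [Finset.sum_insert ha, h.add, ih, Finset.sum_insert ha]

theorem sum_right (h : PD B) {ι : Type*} (s : Finset ι) (f : ι → V) (w : V) :
    B w (∑ i ∈ s, f i) = ∑ i ∈ s, B w (f i) := by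
  rw [h.symm, h.sum_left]
  exact Finset.sum_congr rfl fun i _ => h.symm _ _

/-- two vectors with the same pairing are equal -/
theorem ext_right (h : PD B) {u v : V} (huv : ∀ w, B u w = B v w) : u = v := by
  by_contra hne
  have := h.pos (u - v) (sub_ne_zero.mpr hne)
  rw [h.sub_left, huv, sub_self] at this
  exact lt_irrefl _ this

/-- pullback by an injective linear map -/
theorem comap {W : Type*} [AddCommGroup W] [Module ℝ W] (h : PD B) (T : W →ₗ[ℝ] V)
    (hT : Function.Injective T) : PD (fun v w => B (T v) (T w)) where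
  add u v w := by simp [h.add]
  smul c u w := by simp [h.smul]
  symm u v := h.symm _ _
  pos v hv := h.pos _ (fun h0 => hv (hT (by simpa using h0)))

end PD

/-- multilinear expansion of the Gram determinant -/
theorem vol2_expand {ι : Type*} [Fintype ι] [DecidableEq ι] {k : ℕ}
    (W : Fin k → ι → ℝ) (μ : ι → ℝ) :
    Matrix.det (Matrix.of fun a b : Fin k => ∑ i, W a i * μ i * W b i)
      = ∑ φ : Fin k → ι, (∏ a, μ (φ a)) * (∏ a, W a (φ a)) *
          Matrix.det (Matrix.of fun a b : Fin k => W b (φ a)) := by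
  classical
  have h1 : (Matrix.of fun a b : Fin k => ∑ i, W a i * μ i * W b i)
      = fun a : Fin k => ∑ i, (fun b : Fin k => W a i * μ i * W b i) := by
    funext a b
    simp [Finset.sum_apply]
  have h2 := MultilinearMap.map_sum
    (Matrix.detRowAlternating (R := ℝ) (n := Fin k)).toMultilinearMap
    (fun (a : Fin k) (i : ι) => (fun b : Fin k => W a i * μ i * W b i))
  have h3 : Matrix.det (Matrix.of fun a b : Fin k => ∑ i, W a i * μ i * W b i)
      = ∑ φ : Fin k → ι, Matrix.det (fun a b : Fin k => W a (φ a) * μ (φ a) * W b (φ a)) := by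
    rw [h1]
    exact h2
  rw [h3]
  refine Finset.sum_congr rfl fun φ _ => ?_
  have h4 : (fun a b : Fin k => W a (φ a) * μ (φ a) * W b (φ a))
      = Matrix.of fun a b : Fin k => (W a (φ a) * μ (φ a)) *
          (Matrix.of (fun a b : Fin k => W b (φ a))) a b := by
    funext a b
    simp
  rw [h4, Matrix.det_mul_column]
  rw [Finset.prod_mul_distrib]
  ring

/-- symmetrised multilinear expansion (Cauchy–Binet) of the Gram determinant -/
theorem vol2_expand_symm {ι : Type*} [Fintype ι] [DecidableEq ι] {k : ℕ}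
    (W : Fin k → ι → ℝ) (μ : ι → ℝ) :
    (k.factorial : ℝ) * Matrix.det (Matrix.of fun a b : Fin k => ∑ i, W a i * μ i * W b i)
      = ∑ φ : Fin k → ι, (∏ a, μ (φ a)) *
          (Matrix.det (Matrix.of fun a b : Fin k => W b (φ a))) ^ 2 := by
  classical
  rw [vol2_expand]
  have key : ∀ τ : Equiv.Perm (Fin k),
      ∑ φ : Fin k → ι, (∏ a, μ (φ a)) * (∏ a, W a (φ a)) *
          Matrix.det (Matrix.of fun a b : Fin k => W b (φ a))
      = ∑ φ : Fin k → ι, (∏ a, μ (φ a)) * (((Equiv.Perm.sign τ : ℤ) : ℝ) * ∏ a, W a (φ (τ a))) *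
          Matrix.det (Matrix.of fun a b : Fin k => W b (φ a)) := by
    intro τ
    rw [← Equiv.sum_comp (Equiv.arrowCongr (τ⁻¹ : Equiv.Perm (Fin k)) (Equiv.refl ι))]
    refine Finset.sum_congr rfl fun φ _ => ?_
    have e1 : ∀ a, (Equiv.arrowCongr (τ⁻¹ : Equiv.Perm (Fin k)) (Equiv.refl ι)) φ a
        = φ (τ a) := by
      intro a
      rfl
    simp only [e1]
    have e2 : ∏ a, μ (φ (τ a)) = ∏ a, μ (φ a) := Equiv.prod_comp τ (fun a => μ (φ a))
    have e3 : Matrix.det (Matrix.of fun a b : Fin k => W b (φ (τ a)))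
        = ((Equiv.Perm.sign τ : ℤ) : ℝ) *
          Matrix.det (Matrix.of fun a b : Fin k => W b (φ a)) := by
      rw [← Matrix.det_permute τ]
      rfl
    rw [e2, e3]
    ring
  have h5 : (k.factorial : ℝ) * ∑ φ : Fin k → ι, (∏ a, μ (φ a)) * (∏ a, W a (φ a)) *
          Matrix.det (Matrix.of fun a b : Fin k => W b (φ a))
      = ∑ τ : Equiv.Perm (Fin k), ∑ φ : Fin k → ι, (∏ a, μ (φ a)) *
          (((Equiv.Perm.sign τ : ℤ) : ℝ) * ∏ a, W a (φ (τ a))) *
          Matrix.det (Matrix.of fun a b : Fin k => W b (φ a)) := by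
    rw [← Finset.sum_congr rfl (fun τ _ => key τ)]
    simp [Fintype.card_perm]
  rw [h5, Finset.sum_comm]
  refine Finset.sum_congr rfl fun φ _ => ?_
  rw [← Finset.sum_mul, ← Finset.mul_sum]
  have h6 : ∑ τ : Equiv.Perm (Fin k), ((Equiv.Perm.sign τ : ℤ) : ℝ) * ∏ a, W a (φ (τ a))
      = Matrix.det (Matrix.of fun a b : Fin k => W b (φ a)) := by
    rw [Matrix.det_apply']
    rfl
  rw [h6]
  ring

section diag

variable {ι : Type*} [Fintype ι] [DecidableEq ι]

/-- `b` diagonalises the form `B` with diagonal entries `μ`. -/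
def Diag (B : V → V → ℝ) (b : Module.Basis ι ℝ V) (μ : ι → ℝ) : Prop :=
  ∀ i j, B (b i) (b j) = if i = j then μ i else 0

theorem Diag.apply (hB : PD B) {b : Module.Basis ι ℝ V} {μ : ι → ℝ} (h : Diag B b μ) (v w : V) :
    B v w = ∑ i, b.repr v i * μ i * b.repr w i := by
  conv_lhs => rw [← b.sum_repr v, ← b.sum_repr w]
  rw [hB.sum_left]
  refine Finset.sum_congr rfl fun i _ => ?_
  rw [hB.sum_right]
  have : ∀ j, B (b.repr v i • b i) (b.repr w j • b j)
      = if i = j then b.repr v i * μ i * b.repr w i else 0 := by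
    intro j
    rw [hB.smul, hB.smul_right, h i j]
    split_ifs with hij
    · subst hij; ring
    · ring
  rw [Finset.sum_congr rfl (fun j _ => this j)]
  simp

theorem Diag.vol2 (hB : PD B) {b : Module.Basis ι ℝ V} {μ : ι → ℝ} (h : Diag B b μ) {k : ℕ}
    (v : Fin k → V) :
    (k.factorial : ℝ) * vol2 B v = ∑ φ : Fin k → ι, (∏ a, μ (φ a)) *
          (Matrix.det (Matrix.of fun a c : Fin k => b.repr (v c) (φ a))) ^ 2 := by
  rw [← vol2_expand_symm (fun a i => b.repr (v a) i) μ]
  unfold MP_3d2465_an.vol2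
  congr 3
  funext i j
  exact h.apply hB _ _

omit [Fintype ι] in
theorem Diag.vol2_basis {b : Module.Basis ι ℝ V} {μ : ι → ℝ} (h : Diag B b μ) {k : ℕ}
    (φ : Fin k → ι) (hφ : Function.Injective φ) :
    MP_3d2465_an.vol2 B (fun a => b (φ a)) = ∏ a, μ (φ a) := by
  unfold MP_3d2465_an.vol2
  have : (Matrix.of fun i j : Fin k => B (b (φ i)) (b (φ j)))
      = Matrix.diagonal (fun a => μ (φ a)) := by
    funext i j
    simp only [Matrix.of_apply, Matrix.diagonal_apply]
    rw [h]
    by_cases hij : i = j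
    · simp [hij]
    · simp [hij, hφ.ne hij]
  rw [this, Matrix.det_diagonal]

/-- comparison of Gram determinants from the diagonal entries -/
theorem vol2_le_of_diag {X Y : V → V → ℝ} (hX : PD X) (hY : PD Y) {b : Module.Basis ι ℝ V}
    {μ : ι → ℝ} (hXb : Diag X b μ) (hYb : Diag Y b (fun _ => 1)) {k : ℕ} {β : ℝ}
    (hβ : ∀ φ : Fin k → ι, Function.Injective φ → ∏ a, μ (φ a) ≤ β) (v : Fin k → V) :
    vol2 X v ≤ β * vol2 Y v := by
  have hk : (0 : ℝ) < k.factorial := by exact_mod_cast k.factorial_pos
  have h1 := hXb.vol2 hX v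
  have h2 := hYb.vol2 hY v
  have h3 : (k.factorial : ℝ) * vol2 X v ≤ (k.factorial : ℝ) * (β * vol2 Y v) := by
    have : (k.factorial : ℝ) * (β * vol2 Y v) = β * ((k.factorial : ℝ) * vol2 Y v) := by ring
    rw [this, h1, h2, Finset.mul_sum]
    refine Finset.sum_le_sum fun φ _ => ?_
    by_cases hφ : Function.Injective φ
    · have := hβ φ hφ
      simp only [Finset.prod_const_one, one_mul]
      exact mul_le_mul_of_nonneg_right this (sq_nonneg _)
    · have h0 : Matrix.det (Matrix.of fun a c : Fin k => b.repr (v c) (φ a)) = 0 := by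
        simp only [Function.Injective, not_forall] at hφ
        obtain ⟨i, j, hij, hne⟩ := hφ
        refine Matrix.det_zero_of_row_eq hne ?_
        funext c
        simp [hij]
      rw [h0]; simp
  exact le_of_mul_le_mul_left h3 hk

end diag

/-- the inner product space core of a positive definite form -/
@[reducible] noncomputable def PD.core (hB : PD B) : InnerProductSpace.Core ℝ V where
  inner v w := B v w
  conj_inner_symm v w := by
    simpa using hB.symm w v
  re_inner_nonneg v := by simpa using hB.nonneg v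
  add_left u v w := hB.add u v w
  smul_left u v c := by simpa using hB.smul c u v
  definite v h := by
    by_contra hne
    exact absurd h (hB.pos v hne).ne'

/-- Simultaneous diagonalisation of two positive definite forms. -/
theorem exists_diag [FiniteDimensional ℝ V] {P Q : V → V → ℝ} (hP : PD P) (hQ : PD Q) :
    ∃ (b : Module.Basis (Fin (Module.finrank ℝ V)) ℝ V) (μ : Fin (Module.finrank ℝ V) → ℝ),
      (∀ i, 0 < μ i) ∧ Diag P b (fun _ => 1) ∧ Diag Q b μ := by
  let : NormedAddCommGroup V := @InnerProductSpace.Core.toNormedAddCommGroup ℝ V _ _ _ hP.core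
  let : InnerProductSpace ℝ V := InnerProductSpace.ofCore hP.core.toCore
  have hin : ∀ v w : V, inner ℝ v w = P v w := fun v w => rfl
  -- the operator representing Q
  let Qm : V → V →L[ℝ] ℝ := fun v => LinearMap.toContinuousLinearMap
    { toFun := fun w => Q v w
      map_add' := fun u w => hQ.add_right v u w
      map_smul' := fun c w => by simpa using hQ.smul_right c v w }
  let T : V →ₗ[ℝ] V :=
    { toFun := fun v => (InnerProductSpace.toDual ℝ V).symm (Qm v)
      map_add' := fun u v => by
        rw [← map_add]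
        congr 1
        ext w
        simp [Qm, hQ.add]
      map_smul' := fun c v => by
        rw [RingHom.id_apply, ← map_smul (InnerProductSpace.toDual ℝ V).symm]
        congr 1
        ext w
        simp [Qm, hQ.smul] }
  have hT : ∀ v w, P (T v) w = Q v w := by
    intro v w
    rw [← hin]
    simp [T, Qm]
  have hsymm : T.IsSymmetric := by
    intro v w
    rw [hin, hT, real_inner_comm, hin, hT, hQ.symm]
  let e := hsymm.eigenvectorBasis rfl
  refine ⟨e.toBasis, hsymm.eigenvalues rfl, ?_, ?_, ?_⟩
  · intro i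
    have h1 : Q (e i) (e i) = hsymm.eigenvalues rfl i := by
      rw [← hT, hsymm.apply_eigenvectorBasis rfl i, ← hin]
      simp only [RCLike.ofReal_real_eq_id, id_eq]
      rw [inner_smul_left]
      have : inner ℝ (e i) (e i) = (1 : ℝ) := by
        have := orthonormal_iff_ite.mp e.orthonormal i i
        simpa using this
      simp only [e] at this ⊢
      rw [this]
      simp
    rw [← h1]
    apply hQ.pos
    simpa using e.toBasis.ne_zero i
  · intro i j
    have := orthonormal_iff_ite.mp e.orthonormal i j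
    simpa [hin] using this
  · intro i j
    have h0 := orthonormal_iff_ite.mp e.orthonormal i j
    simp only [OrthonormalBasis.coe_toBasis]
    rw [← hT, hsymm.apply_eigenvectorBasis rfl i]
    simp only [RCLike.ofReal_real_eq_id, id_eq]
    rw [hP.smul]
    rw [hin] at h0
    rw [h0]
    split_ifs <;> simp

theorem vol2_nonneg [FiniteDimensional ℝ V] (hB : PD B) {k : ℕ} (v : Fin k → V) :
    0 ≤ vol2 B v := by
  obtain ⟨b, μ, hμ, h, -⟩ := exists_diag hB hB
  have hk : (0 : ℝ) < k.factorial := by exact_mod_cast k.factorial_pos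
  have h1 := h.vol2 hB v
  have h2 : 0 ≤ (k.factorial : ℝ) * vol2 B v := by
    rw [h1]
    refine Finset.sum_nonneg fun φ _ => ?_
    exact mul_nonneg (Finset.prod_nonneg fun a _ => zero_le_one) (sq_nonneg _)
  exact nonneg_of_mul_nonneg_right h2 hk

/-- monotonicity of Gram determinants -/
theorem vol2_le_pow [FiniteDimensional ℝ V] {X Y : V → V → ℝ} (hX : PD X) (hY : PD Y) {a : ℝ}
    (h : ∀ v, X v v ≤ a * Y v v) {k : ℕ} (v : Fin k → V) :
    vol2 X v ≤ a ^ k * vol2 Y v := by
  obtain ⟨b, μ, hμ, hYb, hXb⟩ := exists_diag hY hX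
  refine vol2_le_of_diag hX hY hXb hYb (fun φ _ => ?_) v
  calc ∏ i, μ (φ i) ≤ ∏ _i : Fin k, a := by
        refine Finset.prod_le_prod (fun i _ => (hμ _).le) (fun i _ => ?_)
        have := h (b (φ i))
        rw [hXb, hYb] at this
        simpa using this
    _ = a ^ k := by simp

omit [AddCommGroup V] [Module ℝ V] in
theorem vol2_one (B : V → V → ℝ) (v : V) : vol2 B (fun _ : Fin 1 => v) = B v v := by
  simp [vol2]

end Pool.Agent.Lib.MP_3d2465_an
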