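import Pool.Agent.Lib.MP_3d2465_an.Smooth

/-!
The halving step along orbits.
-/

namespace Pool.Agent.Lib.MP_3d2465_an

open Filter Topology Bundle Manifold ContinuousLinearMap
open scoped ContDiff

section
variable {E : Type*} [NormedAddCommGroup E] [NormedSpace ℝ E] [FiniteDimensional ℝ E]

theorem exists_clm_of_pd {X : E → E → ℝ} (hX : PD X) :
    ∃ B : E →L[ℝ] E →L[ℝ] ℝ, ∀ v w, B v w = X v w := by
  let L : E →ₗ[ℝ] (E →L[ℝ] ℝ) :=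
    { toFun := fun v => LinearMap.toContinuousLinearMap
        { toFun := fun w => X v w
          map_add' := fun u w => hX.add_right v u w
          map_smul' := fun c w => by simpa using hX.smul_right c v w }
      map_add' := fun u v => by ext w; simp [hX.add]
      map_smul' := fun c v => by ext w; simp [hX.smul] }
  exact ⟨LinearMap.toContinuousLinearMap L, fun v w => rfl⟩

omit [FiniteDimensional ℝ E] in
theorem exists_pullback_clm (Q : E →L[ℝ] E →L[ℝ] ℝ) (A : E →L[ℝ] E) :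
    ∃ R : E →L[ℝ] E →L[ℝ] ℝ, ∀ v w, R v w = Q (A v) (A w) :=
  ⟨Q.bilinearComp A A, fun _ _ => rfl⟩

theorem exists_gm_clm (P Q : E →L[ℝ] E →L[ℝ] ℝ) (hP : PD (fun v w => P v w))
    (hQ : PD (fun v w => Q v w)) :
    ∃ X : E →L[ℝ] E →L[ℝ] ℝ, GM (fun v w => P v w) (fun v w => Q v w) (fun v w => X v w) := by
  obtain ⟨X, hX⟩ := exists_gm hP hQ
  obtain ⟨B, hB⟩ := exists_clm_of_pd hX.pdX
  refine ⟨B, ?_⟩
  have : (fun v w => B v w) = X := by funext v w; exact hB v w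
  rw [this]; exact hX

end

variable {E : Type*} [NormedAddCommGroup E] [NormedSpace ℝ E] [FiniteDimensional ℝ E]
  {M : Type*} [TopologicalSpace M] [ChartedSpace E M] [IsManifold 𝓘(ℝ, E) ∞ M]

omit [FiniteDimensional ℝ E] [IsManifold 𝓘(ℝ, E) ∞ M] in
theorem exists_pullback_field {F : M → M}
    (Q : ∀ x : M, TangentSpace 𝓘(ℝ, E) x →L[ℝ] TangentSpace 𝓘(ℝ, E) x →L[ℝ] ℝ)
    (A : ∀ x : M, TangentSpace 𝓘(ℝ, E) x →L[ℝ] TangentSpace 𝓘(ℝ, E) (F x)) :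
    ∃ R : ∀ x : M, TangentSpace 𝓘(ℝ, E) x →L[ℝ] TangentSpace 𝓘(ℝ, E) x →L[ℝ] ℝ,
      ∀ x v w, R x v w = Q (F x) (A x v) (A x w) := by
  have h : ∀ x : M, ∃ R : TangentSpace 𝓘(ℝ, E) x →L[ℝ] TangentSpace 𝓘(ℝ, E) x →L[ℝ] ℝ,
      ∀ v w, R v w = Q (F x) (A x v) (A x w) := fun x =>
    exists_pullback_clm (E := E) (Q (F x)) (A x)
  choose R hR using h
  exact ⟨R, hR⟩

omit [IsManifold 𝓘(ℝ, E) ∞ M] in
theorem exists_gm_field {Λ : Set M}
    {P Q : ∀ x : M, TangentSpace 𝓘(ℝ, E) x →L[ℝ] TangentSpace 𝓘(ℝ, E) x →L[ℝ] ℝ}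
    (hP : ∀ x ∈ Λ, PD (fun v w => P x v w)) (hQ : ∀ x ∈ Λ, PD (fun v w => Q x v w)) :
    ∃ X : ∀ x : M, TangentSpace 𝓘(ℝ, E) x →L[ℝ] TangentSpace 𝓘(ℝ, E) x →L[ℝ] ℝ,
      ∀ x ∈ Λ, GM (fun v w => P x v w) (fun v w => Q x v w) (fun v w => X x v w) := by
  classical
  have h : ∀ x : M, ∃ X : TangentSpace 𝓘(ℝ, E) x →L[ℝ] TangentSpace 𝓘(ℝ, E) x →L[ℝ] ℝ,
      x ∈ Λ → GM (fun v w => P x v w) (fun v w => Q x v w) (fun v w => X v w) := by
    intro x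
    by_cases hx : x ∈ Λ
    · obtain ⟨X, hX⟩ := exists_gm_clm (E := E) (P x) (Q x) (hP x hx) (hQ x hx)
      exact ⟨X, fun _ => hX⟩
    · exact ⟨0, fun h => absurd h hx⟩
  choose X hX using h
  exact ⟨X, hX⟩

omit [IsManifold 𝓘(ℝ, E) ∞ M] in
theorem finDimTangent (x : M) : FiniteDimensional ℝ (TangentSpace 𝓘(ℝ, E) x) :=
  inferInstanceAs (FiniteDimensional ℝ E)

attribute [local instance] finDimTangent

/-- the data carried through the halving procedure: a continuous field of positive definite forms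
for which `EE ⊥ FF` and for which the `k`-volume on `FF` is expanded by `F` by the factor `α⁻¹`
(squared volumes). -/
structure Good (Λ : Set M) (EE FF : ∀ x : M, Submodule ℝ (TangentSpace 𝓘(ℝ, E) x)) (k : ℕ)
    (F : M → M) (α : ℝ)
    (Q : ∀ x : M, TangentSpace 𝓘(ℝ, E) x →L[ℝ] TangentSpace 𝓘(ℝ, E) x →L[ℝ] ℝ) : Prop where
  cont : ContField Λ Q
  pd : ∀ x ∈ Λ, PD (fun v w => Q x v w)
  orth : ∀ x ∈ Λ, ∀ u ∈ EE x, ∀ w ∈ FF x, Q x u w = 0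
  vol : ∀ x ∈ Λ, ∀ v : Fin k → TangentSpace 𝓘(ℝ, E) x, (∀ i, v i ∈ FF x) →
    vol2 (fun v w => Q x v w) v ≤
      α * vol2 (fun v w => Q (F x) v w) (fun i => mfderiv 𝓘(ℝ, E) 𝓘(ℝ, E) F x (v i))

theorem Good.halve {Λ : Set M} {EE FF : ∀ x : M, Submodule ℝ (TangentSpace 𝓘(ℝ, E) x)} {k : ℕ}
    {F : M → M} {α : ℝ}
    {Q : ∀ x : M, TangentSpace 𝓘(ℝ, E) x →L[ℝ] TangentSpace 𝓘(ℝ, E) x →L[ℝ] ℝ}
    (hF : ContMDiff 𝓘(ℝ, E) 𝓘(ℝ, E) 1 F) (hmap : Set.MapsTo F Λ Λ)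
    (hcompl : ∀ x ∈ Λ, IsCompl (EE x) (FF x))
    (hE : ∀ x ∈ Λ, ∀ u ∈ EE x, mfderiv 𝓘(ℝ, E) 𝓘(ℝ, E) F x u ∈ EE (F x))
    (hFF : ∀ x ∈ Λ, ∀ u ∈ FF x, mfderiv 𝓘(ℝ, E) 𝓘(ℝ, E) F x u ∈ FF (F x))
    (hbij : ∀ x ∈ Λ, Function.Bijective (mfderiv 𝓘(ℝ, E) 𝓘(ℝ, E) F x))
    (h : Good Λ EE FF k (F ∘ F) α Q) :
    ∃ X : ∀ x : M, TangentSpace 𝓘(ℝ, E) x →L[ℝ] TangentSpace 𝓘(ℝ, E) x →L[ℝ] ℝ,
      Good Λ EE FF k F (√α) X := by
  classical
  -- the pulled back field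
  obtain ⟨R, hR⟩ := exists_pullback_field (F := F) Q (fun x => mfderiv 𝓘(ℝ, E) 𝓘(ℝ, E) F x)
  -- the derivative as a linear equivalence
  let T : ∀ x ∈ Λ, TangentSpace 𝓘(ℝ, E) x ≃ₗ[ℝ] TangentSpace 𝓘(ℝ, E) (F x) := fun x hx =>
    LinearEquiv.ofBijective (mfderiv 𝓘(ℝ, E) 𝓘(ℝ, E) F x : _ →ₗ[ℝ] _) (hbij x hx)
  have hT : ∀ x hx v, T x hx v = mfderiv 𝓘(ℝ, E) 𝓘(ℝ, E) F x v := fun x hx v => rfl
  have hRpd : ∀ x ∈ Λ, PD (fun v w => R x v w) := fun x hx => by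
    have h1 := (h.pd (F x) (hmap hx)).comap (T x hx).toLinearMap (T x hx).injective
    have e1 : (fun v w => R x v w) = fun v w =>
        Q (F x) ((T x hx).toLinearMap v) ((T x hx).toLinearMap w) := by
      funext v w; exact hR x v w
    rw [e1]; exact h1
  obtain ⟨X, hX⟩ := exists_gm_field h.pd hRpd
  have hRorth : ∀ x ∈ Λ, ∀ u ∈ EE x, ∀ w ∈ FF x, R x u w = 0 := fun x hx u hu w hw => by
    rw [hR]; exact h.orth _ (hmap hx) _ (hE x hx u hu) _ (hFF x hx w hw)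
  refine ⟨X, ?_, fun x hx => (hX x hx).pdX, fun x hx => ?_, fun x hx v hv => ?_⟩
  · exact contField_gm h.cont (contField_pullback hF hmap h.cont (fun x _ => hR x)) hX
  · exact ((hX x hx).restrict (hcompl x hx) (h.orth x hx) (hRorth x hx)).1
  · set y := F x with hy
    have hyΛ : y ∈ Λ := hmap hx
    -- first geometric mean, restricted to `FF x`
    have g1 := ((hX x hx).restrict (hcompl x hx) (h.orth x hx) (hRorth x hx)).2.symm
    -- second geometric mean, pulled back to `x`, restricted to `FF x`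
    have g2 := (hX y hyΛ).comap (T x hx)
    have o1 : ∀ u ∈ EE x, ∀ w ∈ FF x, Q y (T x hx u) (T x hx w) = 0 := fun u hu w hw =>
      h.orth y hyΛ _ (hE x hx u hu) _ (hFF x hx w hw)
    have o2 : ∀ u ∈ EE x, ∀ w ∈ FF x, R y (T x hx u) (T x hx w) = 0 := fun u hu w hw =>
      hRorth y hyΛ _ (hE x hx u hu) _ (hFF x hx w hw)
    have g3 := (g2.restrict (hcompl x hx) o1 o2).2
    -- the derivative of the second iterate
    have hchain : ∀ v, mfderiv 𝓘(ℝ, E) 𝓘(ℝ, E) (F ∘ F) x v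
        = mfderiv 𝓘(ℝ, E) 𝓘(ℝ, E) F y (mfderiv 𝓘(ℝ, E) 𝓘(ℝ, E) F x v) := by
      intro v
      rw [mfderiv_comp x (hF.mdifferentiableAt one_ne_zero) (hF.mdifferentiableAt one_ne_zero)]
      rfl
    have e1 : (fun v w : FF x => R x v w) = fun v w : FF x => Q y (T x hx v) (T x hx w) := by
      funext v w; exact hR x v w
    rw [e1] at g1
    refine g1.vol2_le g3 (k := k) (α := α) (fun w => ?_) (fun i => ⟨v i, hv i⟩)
    have h1 := h.vol x hx (fun i => (w i : TangentSpace 𝓘(ℝ, E) x)) (fun i => (w i).2)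
    simp only [hchain] at h1
    unfold vol2 at h1 ⊢
    simp only [hR]
    exact h1

end Pool.Agent.Lib.MP_3d2465_an
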