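import Pool.Agent.Lib.MP_3d2465_an.Halving

/-!
The adapted metric.
-/

namespace Pool.Agent.Lib.MP_3d2465_an

open Filter Topology Bundle Manifold ContinuousLinearMap
open scoped ContDiff

variable {E : Type*} [NormedAddCommGroup E] [NormedSpace ℝ E] [FiniteDimensional ℝ E]
  {M : Type*} [TopologicalSpace M] [ChartedSpace E M] [IsManifold 𝓘(ℝ, E) ∞ M]

attribute [local instance] finDimTangent

omit [FiniteDimensional ℝ E] [IsManifold 𝓘(ℝ, E) ∞ M] in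
theorem contMDiff_iter {f : M → M} (hf : ContMDiff 𝓘(ℝ, E) 𝓘(ℝ, E) 1 f) (n : ℕ) :
    ContMDiff 𝓘(ℝ, E) 𝓘(ℝ, E) 1 (f^[n]) := by
  induction n with
  | zero => exact contMDiff_id
  | succ n ih => rw [Function.iterate_succ']; exact hf.comp ih

omit [FiniteDimensional ℝ E] [IsManifold 𝓘(ℝ, E) ∞ M] in
theorem mfderiv_iter_succ {f : M → M} (hf : ContMDiff 𝓘(ℝ, E) 𝓘(ℝ, E) 1 f) (n : ℕ) (x : M)
    (v : TangentSpace 𝓘(ℝ, E) x) :
    mfderiv 𝓘(ℝ, E) 𝓘(ℝ, E) (f^[n + 1]) x v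
      = mfderiv 𝓘(ℝ, E) 𝓘(ℝ, E) (f^[n]) (f x) (mfderiv 𝓘(ℝ, E) 𝓘(ℝ, E) f x v) := by
  have h : mfderiv 𝓘(ℝ, E) 𝓘(ℝ, E) (f^[n] ∘ f) x =
      (mfderiv 𝓘(ℝ, E) 𝓘(ℝ, E) (f^[n]) (f x)).comp (mfderiv 𝓘(ℝ, E) 𝓘(ℝ, E) f x) :=
    mfderiv_comp x ((contMDiff_iter hf n).mdifferentiableAt one_ne_zero)
      (hf.mdifferentiableAt one_ne_zero)
  exact congrArg (fun L : TangentSpace 𝓘(ℝ, E) x →L[ℝ] TangentSpace 𝓘(ℝ, E) (f^[n] (f x)) => L v) h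

/-- continuity over `Λ` of a field of endomorphisms of the tangent spaces -/
def ContEndo (Λ : Set M) (P : ∀ x : M, TangentSpace 𝓘(ℝ, E) x →L[ℝ] TangentSpace 𝓘(ℝ, E) x) :
    Prop :=
  ContinuousOn (fun x ↦ (TotalSpace.mk' (E →L[ℝ] E) x (P x) :
    TotalSpace (E →L[ℝ] E) (fun x : M ↦ TangentSpace 𝓘(ℝ, E) x →L[ℝ] TangentSpace 𝓘(ℝ, E) x))) Λ

/-- the starting field -/
theorem exists_start {Λ : Set M} {EE FF : ∀ x : M, Submodule ℝ (TangentSpace 𝓘(ℝ, E) x)}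
    {g : ∀ x : M, TangentSpace 𝓘(ℝ, E) x →L[ℝ] TangentSpace 𝓘(ℝ, E) x →L[ℝ] ℝ}
    (hg : ContField Λ g) (hpd : ∀ x ∈ Λ, PD (fun v w => g x v w))
    {P : ∀ x : M, TangentSpace 𝓘(ℝ, E) x →L[ℝ] TangentSpace 𝓘(ℝ, E) x}
    (hPE : ∀ x ∈ Λ, ∀ u ∈ EE x, P x u = 0) (hPF : ∀ x ∈ Λ, ∀ w ∈ FF x, P x w = w)
    (hPc : ContEndo Λ P) :
    ∃ Q : ∀ x : M, TangentSpace 𝓘(ℝ, E) x →L[ℝ] TangentSpace 𝓘(ℝ, E) x →L[ℝ] ℝ,
      ContField Λ Q ∧ (∀ x ∈ Λ, PD (fun v w => Q x v w)) ∧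
      (∀ x ∈ Λ, ∀ u ∈ EE x, ∀ w ∈ FF x, Q x u w = 0) ∧
      (∀ x ∈ Λ, ∀ v ∈ FF x, ∀ w ∈ FF x, Q x v w = g x v w) := by
  -- coordinates of `P`
  have hPc' : ∀ x₀ ∈ Λ, ContinuousWithinAt (fun y => inCoordinates E (TangentSpace 𝓘(ℝ, E)) E
      (TangentSpace 𝓘(ℝ, E)) x₀ y x₀ y (P y)) Λ x₀ := by
    intro x₀ hx₀
    have := hPc x₀ hx₀
    rw [continuousWithinAt_hom_bundle] at this
    exact this.2
  -- the complementary projection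
  let P' : ∀ x : M, TangentSpace 𝓘(ℝ, E) x →L[ℝ] TangentSpace 𝓘(ℝ, E) x := fun x =>
    ContinuousLinearMap.id ℝ _ - P x
  have hP' : ∀ x v, P' x v = v - P x v := fun x v => rfl
  have hP'c : ∀ x₀ ∈ Λ, ContinuousWithinAt (fun y => inCoordinates E (TangentSpace 𝓘(ℝ, E)) E
      (TangentSpace 𝓘(ℝ, E)) x₀ y x₀ y (P' y)) Λ x₀ := by
    intro x₀ hx₀
    have key : ∀ y ∈ (chartAt E x₀).source, inCoordinates E (TangentSpace 𝓘(ℝ, E)) E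
        (TangentSpace 𝓘(ℝ, E)) x₀ y x₀ y (P' y) = ContinuousLinearMap.id ℝ E -
          inCoordinates E (TangentSpace 𝓘(ℝ, E)) E (TangentSpace 𝓘(ℝ, E)) x₀ y x₀ y (P y) := by
      intro y hy
      rw [inCoordinates_eq (by simpa using hy) (by simpa using hy),
        inCoordinates_eq (by simpa using hy) (by simpa using hy)]
      set φ := (trivializationAt E (TangentSpace 𝓘(ℝ, E)) x₀).continuousLinearEquivAt ℝ y
        (by simpa using hy) with hφ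
      ext v
      have h1 : φ (P' y (φ.symm v)) = v - φ (P y (φ.symm v)) := by
        rw [hP', map_sub, ContinuousLinearEquiv.apply_symm_apply]
      exact h1
    refine ContinuousWithinAt.congr_of_eventuallyEq
      (continuousWithinAt_const.sub (hPc' x₀ hx₀)) ?_ (key x₀ (mem_chart_source _ _))
    filter_upwards [mem_nhdsWithin_of_mem_nhds
      ((chartAt E x₀).open_source.mem_nhds (mem_chart_source E x₀))] with y hy
    exact key y hy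
  obtain ⟨Q₁, hQ₁⟩ := exists_pullback_field (F := id) g P
  obtain ⟨Q₂, hQ₂⟩ := exists_pullback_field (F := id) g P'
  have c₁ : ContField Λ Q₁ := contField_pullback_general (f := id) continuousOn_id
    (Set.mapsTo_id _) (A := P) hPc' hg (fun x _ => hQ₁ x)
  have c₂ : ContField Λ Q₂ := contField_pullback_general (f := id) continuousOn_id
    (Set.mapsTo_id _) (A := P') hP'c hg (fun x _ => hQ₂ x)
  refine ⟨fun x => Q₁ x + Q₂ x, c₁.add c₂ (fun x _ v w => by rfl), fun x hx => ?_,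
    fun x hx u hu w hw => ?_, fun x hx v hv w hw => ?_⟩
  · have h0 := hpd x hx
    have happ : ∀ v w, (Q₁ x + Q₂ x) v w = g x (P x v) (P x w) + g x (v - P x v) (w - P x w) := by
      intro v w
      rw [← hP', ← hP']
      exact congrArg₂ (· + ·) (hQ₁ x v w) (hQ₂ x v w)
    refine ⟨fun u v w => by simp; ring, fun c u w => by simp; ring, fun u v => ?_,
      fun v hv => ?_⟩
    · rw [happ, happ, h0.symm, h0.symm (u - P x u)]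
    · rw [happ]
      have n1 := h0.nonneg (P x v)
      have n2 := h0.nonneg (v - P x v)
      rcases eq_or_ne (P x v) 0 with hz | hz
      · have : v - P x v ≠ 0 := by rw [hz, sub_zero]; exact hv
        have := h0.pos _ this
        linarith
      · have := h0.pos _ hz
        linarith
  · have h0 := hpd x hx
    have happ : (Q₁ x + Q₂ x) u w = g x (P x u) (P x w) + g x (u - P x u) (w - P x w) := by
      rw [← hP', ← hP']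
      exact congrArg₂ (· + ·) (hQ₁ x u w) (hQ₂ x u w)
    rw [happ, hPE x hx u hu, hPF x hx w hw, sub_self]
    simp
  · have h0 := hpd x hx
    have happ : (Q₁ x + Q₂ x) v w = g x (P x v) (P x w) + g x (v - P x v) (w - P x w) := by
      rw [← hP', ← hP']
      exact congrArg₂ (· + ·) (hQ₁ x v w) (hQ₂ x v w)
    rw [happ, hPF x hx v hv, hPF x hx w hw, sub_self, sub_self]
    simp

omit [FiniteDimensional ℝ E] [IsManifold 𝓘(ℝ, E) ∞ M] in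
theorem mfderiv_iter_zero {f : M → M} (x : M) (v : TangentSpace 𝓘(ℝ, E) x) :
    mfderiv 𝓘(ℝ, E) 𝓘(ℝ, E) (f^[0]) x v = v := by
  have h1 : mfderiv 𝓘(ℝ, E) 𝓘(ℝ, E) (f^[0]) x = ContinuousLinearMap.id ℝ _ := mfderiv_id
  rw [h1]
  rfl

omit [FiniteDimensional ℝ E] [IsManifold 𝓘(ℝ, E) ∞ M] in
theorem iter_mem {f : M → M} (hf : ContMDiff 𝓘(ℝ, E) 𝓘(ℝ, E) 1 f) {Λ : Set M}
    (hmap : Set.MapsTo f Λ Λ) {G : ∀ x : M, Submodule ℝ (TangentSpace 𝓘(ℝ, E) x)}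
    (hG : ∀ x ∈ Λ, ∀ u ∈ G x, mfderiv 𝓘(ℝ, E) 𝓘(ℝ, E) f x u ∈ G (f x)) (n : ℕ) :
    ∀ x ∈ Λ, ∀ u ∈ G x, mfderiv 𝓘(ℝ, E) 𝓘(ℝ, E) (f^[n]) x u ∈ G (f^[n] x) := by
  induction n with
  | zero =>
    intro x _ u hu
    rw [mfderiv_iter_zero]
    exact hu
  | succ n ih =>
    intro x hx u hu
    rw [mfderiv_iter_succ hf]
    exact ih (f x) (hmap hx) _ (hG x hx u hu)

omit [FiniteDimensional ℝ E] [IsManifold 𝓘(ℝ, E) ∞ M] in
theorem iter_bij {f : M → M} (hf : ContMDiff 𝓘(ℝ, E) 𝓘(ℝ, E) 1 f) {Λ : Set M}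
    (hmap : Set.MapsTo f Λ Λ)
    (hbij : ∀ x ∈ Λ, Function.Bijective (mfderiv 𝓘(ℝ, E) 𝓘(ℝ, E) f x)) (n : ℕ) :
    ∀ x ∈ Λ, Function.Bijective (mfderiv 𝓘(ℝ, E) 𝓘(ℝ, E) (f^[n]) x) := by
  induction n with
  | zero =>
    intro x _
    have : (mfderiv 𝓘(ℝ, E) 𝓘(ℝ, E) (f^[0]) x : TangentSpace 𝓘(ℝ, E) x → _) = id := by
      funext v; exact mfderiv_iter_zero x v
    rw [this]
    exact Function.bijective_id
  | succ n ih =>
    intro x hx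
    have : (mfderiv 𝓘(ℝ, E) 𝓘(ℝ, E) (f^[n + 1]) x : TangentSpace 𝓘(ℝ, E) x → _) =
        (mfderiv 𝓘(ℝ, E) 𝓘(ℝ, E) (f^[n]) (f x)) ∘ (mfderiv 𝓘(ℝ, E) 𝓘(ℝ, E) f x) := by
      funext v; exact mfderiv_iter_succ hf n x v
    rw [this]
    exact (ih (f x) (hmap hx)).comp (hbij x hx)

/-- repeated halving -/
theorem halve_all {Λ : Set M} {EE FF : ∀ x : M, Submodule ℝ (TangentSpace 𝓘(ℝ, E) x)} {k : ℕ}
    {f : M → M} (hf : ContMDiff 𝓘(ℝ, E) 𝓘(ℝ, E) 1 f) (hmap : Set.MapsTo f Λ Λ)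
    (hcompl : ∀ x ∈ Λ, IsCompl (EE x) (FF x))
    (hE : ∀ x ∈ Λ, ∀ u ∈ EE x, mfderiv 𝓘(ℝ, E) 𝓘(ℝ, E) f x u ∈ EE (f x))
    (hFF : ∀ x ∈ Λ, ∀ u ∈ FF x, mfderiv 𝓘(ℝ, E) 𝓘(ℝ, E) f x u ∈ FF (f x))
    (hbij : ∀ x ∈ Λ, Function.Bijective (mfderiv 𝓘(ℝ, E) 𝓘(ℝ, E) f x)) (r : ℕ) :
    (∃ α : ℝ, 0 < α ∧ α < 1 ∧ ∃ Q, Good Λ EE FF k (f^[2 ^ r]) α Q) →
      ∃ α : ℝ, 0 < α ∧ α < 1 ∧ ∃ Q, Good Λ EE FF k f α Q := by
  induction r with
  | zero =>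
    rintro ⟨α, h1, h2, Q, hQ⟩
    exact ⟨α, h1, h2, Q, hQ⟩
  | succ r ih =>
    rintro ⟨α, h1, h2, Q, hQ⟩
    apply ih
    have h3 : f^[2 ^ (r + 1)] = f^[2 ^ r] ∘ f^[2 ^ r] := by
      rw [← Function.iterate_add]; congr 1; ring
    rw [h3] at hQ
    obtain ⟨X, hX⟩ := hQ.halve (contMDiff_iter hf _) (hmap.iterate _) hcompl
      (iter_mem hf hmap hE _) (iter_mem hf hmap hFF _) (iter_bij hf hmap hbij _)
    refine ⟨√α, Real.sqrt_pos.mpr h1, ?_, X, hX⟩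
    rw [Real.sqrt_lt' one_pos]
    simpa using h2

theorem main_raw [T2Space M] [SigmaCompactSpace M] {Λ : Set M} (hΛ : IsClosed Λ)
    {EE FF : ∀ x : M, Submodule ℝ (TangentSpace 𝓘(ℝ, E) x)} {k : ℕ}
    {f : M → M} (hf : ContMDiff 𝓘(ℝ, E) 𝓘(ℝ, E) 1 f) (hmap : Set.MapsTo f Λ Λ)
    (hcompl : ∀ x ∈ Λ, IsCompl (EE x) (FF x))
    (hE : ∀ x ∈ Λ, ∀ u ∈ EE x, mfderiv 𝓘(ℝ, E) 𝓘(ℝ, E) f x u ∈ EE (f x))
    (hFF : ∀ x ∈ Λ, ∀ u ∈ FF x, mfderiv 𝓘(ℝ, E) 𝓘(ℝ, E) f x u ∈ FF (f x))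
    (hbij : ∀ x ∈ Λ, Function.Bijective (mfderiv 𝓘(ℝ, E) 𝓘(ℝ, E) f x))
    {g : ∀ x : M, TangentSpace 𝓘(ℝ, E) x →L[ℝ] TangentSpace 𝓘(ℝ, E) x →L[ℝ] ℝ}
    (hg : ContField Λ g) (hpd : ∀ x ∈ Λ, PD (fun v w => g x v w))
    {P : ∀ x : M, TangentSpace 𝓘(ℝ, E) x →L[ℝ] TangentSpace 𝓘(ℝ, E) x}
    (hPE : ∀ x ∈ Λ, ∀ u ∈ EE x, P x u = 0) (hPF : ∀ x ∈ Λ, ∀ w ∈ FF x, P x w = w)
    (hPc : ContEndo Λ P) {C lam : ℝ} (hC : 0 < C) (hlam : 0 < lam)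
    (hvol : ∀ x ∈ Λ, ∀ n : ℕ, 1 ≤ n → ∀ v : Fin k → TangentSpace 𝓘(ℝ, E) x,
      (∀ i, v i ∈ FF x) →
      C * Real.exp (lam * n) * √(vol2 (fun v w => g x v w) v) ≤
        √(vol2 (fun v w => g (f^[n] x) v w)
          (fun i => mfderiv 𝓘(ℝ, E) 𝓘(ℝ, E) (f^[n]) x (v i)))) :
    ∃ g' : ContMDiffRiemannianMetric 𝓘(ℝ, E) ∞ E (fun x : M ↦ TangentSpace 𝓘(ℝ, E) x),
      ∃ lam' : ℝ, 0 < lam' ∧ ∀ x ∈ Λ, ∀ n : ℕ, ∀ v : Fin k → TangentSpace 𝓘(ℝ, E) x,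
      (∀ i, v i ∈ FF x) →
      Real.exp (lam' * n) * √(vol2 (fun v w => g'.inner x v w) v) ≤
        √(vol2 (fun v w => g'.inner (f^[n] x) v w)
          (fun i => mfderiv 𝓘(ℝ, E) 𝓘(ℝ, E) (f^[n]) x (v i))) := by
  obtain ⟨Q, hQc, hQpd, hQo, hQg⟩ := exists_start hg hpd hPE hPF hPc
  -- choose `r` large
  obtain ⟨r, hr⟩ : ∃ r : ℕ, 1 < C ^ 2 * Real.exp (2 * lam * (2 ^ r : ℕ)) := by
    obtain ⟨r, hr⟩ := exists_nat_gt (1 / (C ^ 2 * (2 * lam)))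
    refine ⟨r, ?_⟩
    have h1 : 1 < C ^ 2 * (2 * lam) * r := by
      rw [div_lt_iff₀ (by positivity)] at hr
      linarith
    have h2 : (r : ℝ) ≤ ((2 ^ r : ℕ) : ℝ) := by exact_mod_cast Nat.lt_two_pow_self.le
    have h3 : 2 * lam * ((2 ^ r : ℕ) : ℝ) ≤ Real.exp (2 * lam * (2 ^ r : ℕ)) := by
      have := Real.add_one_le_exp (2 * lam * ((2 ^ r : ℕ) : ℝ))
      linarith
    calc 1 < C ^ 2 * (2 * lam) * r := h1
      _ ≤ C ^ 2 * (2 * lam) * ((2 ^ r : ℕ) : ℝ) := by gcongr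
      _ = C ^ 2 * (2 * lam * ((2 ^ r : ℕ) : ℝ)) := by ring
      _ ≤ _ := by gcongr
  have hbase : ∃ α : ℝ, 0 < α ∧ α < 1 ∧ ∃ Q, Good Λ EE FF k (f^[2 ^ r]) α Q := by
    refine ⟨(C ^ 2 * Real.exp (2 * lam * (2 ^ r : ℕ)))⁻¹, by positivity,
      inv_lt_one_of_one_lt₀ hr, Q, hQc, hQpd, hQo, fun x hx v hv => ?_⟩
    have h1 := hvol x hx (2 ^ r) Nat.one_le_two_pow v hv
    have hy : f^[2 ^ r] x ∈ Λ := hmap.iterate _ hx
    have n1 := vol2_nonneg (hpd x hx) v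
    have n2 := vol2_nonneg (hpd _ hy) (fun i => mfderiv 𝓘(ℝ, E) 𝓘(ℝ, E) (f^[2 ^ r]) x (v i))
    have e1 : vol2 (fun v w => Q x v w) v = vol2 (fun v w => g x v w) v := by
      unfold vol2
      congr 1
      funext i j
      exact hQg x hx _ (hv i) _ (hv j)
    have e2 : vol2 (fun v w => Q (f^[2 ^ r] x) v w)
          (fun i => mfderiv 𝓘(ℝ, E) 𝓘(ℝ, E) (f^[2 ^ r]) x (v i))
        = vol2 (fun v w => g (f^[2 ^ r] x) v w)
          (fun i => mfderiv 𝓘(ℝ, E) 𝓘(ℝ, E) (f^[2 ^ r]) x (v i)) := by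
      unfold vol2
      congr 1
      funext i j
      exact hQg _ hy _ (iter_mem hf hmap hFF _ x hx _ (hv i)) _
        (iter_mem hf hmap hFF _ x hx _ (hv j))
    rw [e1, e2]
    have h2 := mul_self_le_mul_self (by positivity) h1
    rw [Real.mul_self_sqrt n2] at h2
    have h3 : C * Real.exp (lam * (2 ^ r : ℕ)) * √(vol2 (fun v w => g x v w) v) *
        (C * Real.exp (lam * (2 ^ r : ℕ)) * √(vol2 (fun v w => g x v w) v))
        = C ^ 2 * Real.exp (2 * lam * (2 ^ r : ℕ)) * vol2 (fun v w => g x v w) v := by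
      have h4 : Real.exp (2 * lam * (2 ^ r : ℕ))
          = Real.exp (lam * (2 ^ r : ℕ)) * Real.exp (lam * (2 ^ r : ℕ)) := by
        rw [← Real.exp_add]; congr 1; ring
      rw [h4]
      calc _ = C ^ 2 * (Real.exp (lam * (2 ^ r : ℕ)) * Real.exp (lam * (2 ^ r : ℕ))) *
            (√(vol2 (fun v w => g x v w) v) * √(vol2 (fun v w => g x v w) v)) := by ring
        _ = _ := by rw [Real.mul_self_sqrt n1]
    rw [h3] at h2
    rw [inv_mul_eq_div, le_div_iff₀ (by positivity)]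
    linarith
  obtain ⟨α, hα0, hα1, Q', hQ'⟩ := halve_all hf hmap hcompl hE hFF hbij r hbase
  obtain ⟨a, ha1, ha2⟩ : ∃ a : ℝ, 1 < a ∧ a ^ (2 * k) * α < 1 := by
    have hc : ContinuousAt (fun a : ℝ => a ^ (2 * k) * α) 1 := by fun_prop
    have h1 : ∀ᶠ a : ℝ in 𝓝 1, a ^ (2 * k) * α < 1 := hc.eventually (gt_mem_nhds (by simpa using hα1))
    have h2 : ∀ᶠ a : ℝ in 𝓝[>] 1, a ^ (2 * k) * α < 1 := h1.filter_mono nhdsWithin_le_nhds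
    obtain ⟨a, h3, h4⟩ := (h2.and self_mem_nhdsWithin).exists
    exact ⟨a, h4, h3⟩
  obtain ⟨g', hg'⟩ := exists_smooth_approx hΛ hQ'.cont hQ'.pd ha1
  set γ : ℝ := a ^ (2 * k) * α with hγ
  have ha0 : 0 < a := by linarith
  have hγ0 : 0 < γ := by positivity
  have hg'pd : ∀ x, PD (fun v w => g'.inner x v w) := fun x =>
    ⟨fun u v w => by simp, fun c u w => by simp, g'.symm x, g'.pos x⟩
  have hone : ∀ x ∈ Λ, ∀ v : Fin k → TangentSpace 𝓘(ℝ, E) x, (∀ i, v i ∈ FF x) →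
      vol2 (fun v w => g'.inner x v w) v ≤ γ * vol2 (fun v w => g'.inner (f x) v w)
          (fun i => mfderiv 𝓘(ℝ, E) 𝓘(ℝ, E) f x (v i)) := by
    intro x hx v hv
    have h1 := vol2_le_pow (hg'pd x) (hQ'.pd x hx) (fun v => (hg' x hx v).1) v
    have h2 := hQ'.vol x hx v hv
    have h3 := vol2_le_pow (hQ'.pd (f x) (hmap hx)) (hg'pd (f x))
      (fun v => (hg' (f x) (hmap hx) v).2) (fun i => mfderiv 𝓘(ℝ, E) 𝓘(ℝ, E) f x (v i))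
    calc _ ≤ _ := h1
      _ ≤ a ^ k * (α * _) := by gcongr
      _ ≤ a ^ k * (α * (a ^ k * _)) := by gcongr
      _ = _ := by rw [hγ]; ring
  have hiter : ∀ n : ℕ, ∀ x ∈ Λ, ∀ v : Fin k → TangentSpace 𝓘(ℝ, E) x, (∀ i, v i ∈ FF x) →
      vol2 (fun v w => g'.inner x v w) v ≤ γ ^ n * vol2 (fun v w => g'.inner (f^[n] x) v w)
          (fun i => mfderiv 𝓘(ℝ, E) 𝓘(ℝ, E) (f^[n]) x (v i)) := by
    intro n
    induction n with
    | zero =>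
      intro x hx v hv
      simp only [mfderiv_iter_zero]
      simp only [pow_zero, one_mul]
      exact le_refl _
    | succ n ih =>
      intro x hx v hv
      have h1 := hone x hx v hv
      have h2 := ih (f x) (hmap hx) (fun i => mfderiv 𝓘(ℝ, E) 𝓘(ℝ, E) f x (v i))
        (fun i => hFF x hx _ (hv i))
      simp only [mfderiv_iter_succ hf]
      calc _ ≤ _ := h1
        _ ≤ γ * (γ ^ n * _) := by gcongr
        _ = _ := by rw [pow_succ]; ring_nf; rfl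
  refine ⟨g', -Real.log γ / 2, ?_, fun x hx n v hv => ?_⟩
  · have := Real.log_neg hγ0 ha2
    linarith
  · have h1 := hiter n x hx v hv
    have h2 : γ ^ n = Real.exp (Real.log γ * n) := by
      rw [mul_comm, Real.exp_nat_mul, Real.exp_log hγ0]
    rw [h2] at h1
    have h3 := Real.sqrt_le_sqrt h1
    rw [Real.sqrt_mul (Real.exp_pos _).le, ← Real.exp_half] at h3
    have h4 := mul_le_mul_of_nonneg_left h3 (Real.exp_pos (-Real.log γ / 2 * n)).le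
    have h5 : -Real.log γ / 2 * n + Real.log γ * n / 2 = 0 := by ring
    rw [← mul_assoc, ← Real.exp_add, h5, Real.exp_zero, one_mul] at h4
    exact h4

end Pool.Agent.Lib.MP_3d2465_an
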