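import Pool.Agent.Lib.MP_3d2465_an.Field

/-!
Smooth Riemannian metrics approximating a continuous field of positive definite forms over a closed
set.
-/

namespace Pool.Agent.Lib.MP_3d2465_an

open Filter Topology Bundle Manifold ContinuousLinearMap
open scoped ContDiff

variable {E : Type*} [NormedAddCommGroup E] [NormedSpace ℝ E]
  {M : Type*} [TopologicalSpace M] [ChartedSpace E M] [IsManifold 𝓘(ℝ, E) ∞ M]

/-- the form with constant coordinates `B` in the trivialisation at `x₀` -/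
noncomputable def locForm (x₀ : M) (B : E →L[ℝ] E →L[ℝ] ℝ) (y : M) :
    TangentSpace 𝓘(ℝ, E) y →L[ℝ] TangentSpace 𝓘(ℝ, E) y →L[ℝ] ℝ :=
  (trivializationAt (E →L[ℝ] E →L[ℝ] ℝ)
    (fun x : M ↦ TangentSpace 𝓘(ℝ, E) x →L[ℝ] TangentSpace 𝓘(ℝ, E) x →L[ℝ] ℝ) x₀).symm y B

theorem mem_base {x₀ y : M} (hy : y ∈ (chartAt E x₀).source) :
    y ∈ (trivializationAt (E →L[ℝ] E →L[ℝ] ℝ)
      (fun x : M ↦ TangentSpace 𝓘(ℝ, E) x →L[ℝ] TangentSpace 𝓘(ℝ, E) x →L[ℝ] ℝ) x₀).baseSet := by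
  rw [hom_trivializationAt_baseSet, hom_trivializationAt_baseSet]
  simpa using hy

theorem coordForm_locForm {x₀ y : M} (hy : y ∈ (chartAt E x₀).source)
    (B : E →L[ℝ] E →L[ℝ] ℝ) : coordForm x₀ (locForm x₀ B) y = B := by
  have h := (trivializationAt (E →L[ℝ] E →L[ℝ] ℝ)
    (fun x : M ↦ TangentSpace 𝓘(ℝ, E) x →L[ℝ] TangentSpace 𝓘(ℝ, E) x →L[ℝ] ℝ)
      x₀).apply_mk_symm (mem_base hy) B
  have h2 := congrArg Prod.snd h
  exact h2

theorem locForm_apply {x₀ y : M} (hy : y ∈ (chartAt E x₀).source)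
    (B : E →L[ℝ] E →L[ℝ] ℝ) (v w : E) :
    locForm x₀ B y (tequiv x₀ y hy v) (tequiv x₀ y hy w) = B v w := by
  rw [← coordForm_apply' hy, coordForm_locForm hy]

theorem locForm_apply' {x₀ y : M} (hy : y ∈ (chartAt E x₀).source)
    (B : E →L[ℝ] E →L[ℝ] ℝ) (v w : TangentSpace 𝓘(ℝ, E) y) :
    locForm x₀ B y v w = B ((tequiv x₀ y hy).symm v) ((tequiv x₀ y hy).symm w) := by
  rw [← locForm_apply hy, ContinuousLinearEquiv.apply_symm_apply,
    ContinuousLinearEquiv.apply_symm_apply]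

theorem contMDiffOn_locForm (x₀ : M) (B : E →L[ℝ] E →L[ℝ] ℝ) :
    ContMDiffOn 𝓘(ℝ, E) (𝓘(ℝ, E).prod 𝓘(ℝ, E →L[ℝ] E →L[ℝ] ℝ)) ∞
      (fun y ↦ (TotalSpace.mk' (E →L[ℝ] E →L[ℝ] ℝ) y (locForm x₀ B y) :
        TotalSpace (E →L[ℝ] E →L[ℝ] ℝ)
      (fun x : M ↦ TangentSpace 𝓘(ℝ, E) x →L[ℝ] TangentSpace 𝓘(ℝ, E) x →L[ℝ] ℝ)))
      (chartAt E x₀).source := by
  intro y hy
  refine ContMDiffAt.contMDiffWithinAt ?_
  rw [Trivialization.contMDiffAt_section_iff (IB := 𝓘(ℝ, E)) (n := ∞)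
    (s := locForm (E := E) x₀ B) (trivializationAt (E →L[ℝ] E →L[ℝ] ℝ)
      (fun x : M ↦ TangentSpace 𝓘(ℝ, E) x →L[ℝ] TangentSpace 𝓘(ℝ, E) x →L[ℝ] ℝ) x₀)]
  · refine ContMDiffAt.congr_of_eventuallyEq (contMDiffAt_const (c := B)) ?_
    filter_upwards [(chartAt E x₀).open_source.mem_nhds hy] with z hz
    exact coordForm_locForm hz B
  · exact mem_base hy

/-- A positive definite form on a finite-dimensional space. -/
theorem exists_pd [FiniteDimensional ℝ E] :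
    ∃ B : E →L[ℝ] E →L[ℝ] ℝ, PD (fun v w => B v w) := by
  let T : E ≃L[ℝ] EuclideanSpace ℝ (Fin (Module.finrank ℝ E)) := toEuclidean
  let T' : E →L[ℝ] EuclideanSpace ℝ (Fin (Module.finrank ℝ E)) := T
  let B : E →L[ℝ] E →L[ℝ] ℝ := (innerSL ℝ).bilinearComp T' T'
  have hB : ∀ v w, B v w = inner ℝ (T v) (T w) := fun v w => rfl
  refine ⟨B, ⟨?_, ?_, ?_, ?_⟩⟩
  · intro u v w; simp
  · intro c u w; simp
  · intro u v
    rw [hB, hB, real_inner_comm]
  · intro v hv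
    rw [hB]
    exact real_inner_self_pos.mpr (by simpa using hv)

theorem isVonNBounded_of_pd [FiniteDimensional ℝ E] (B : E →L[ℝ] E →L[ℝ] ℝ)
    (h : PD (fun v w => B v w)) : Bornology.IsVonNBounded ℝ {v : E | B v v < 1} := by
  obtain ⟨c, hc, hlow⟩ := PD.exists_lower B h
  rw [NormedSpace.isVonNBounded_iff]
  refine (Metric.isBounded_ball (x := (0 : E)) (r := 1 / c + 1)).subset (fun v hv => ?_)
  have hv' : B v v < 1 := hv
  have h1 := hlow v
  rw [mem_ball_zero_iff]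
  by_contra hcon
  push Not at hcon
  have h2 : c * ‖v‖ ^ 2 < 1 := lt_of_le_of_lt h1 hv'
  have h3 : 0 < 1 / c := by positivity
  have h4 : 1 ≤ ‖v‖ := by linarith
  have h5 : 1 / c + 1 ≤ ‖v‖ ^ 2 := by nlinarith
  have h6 : c * (1 / c + 1) ≤ c * ‖v‖ ^ 2 := by gcongr
  have h7 : c * (1 / c + 1) = 1 + c := by field_simp
  linarith

theorem exists_smooth_approx [FiniteDimensional ℝ E] [T2Space M] [SigmaCompactSpace M]
    {Λ : Set M} (hΛ : IsClosed Λ)
    {Q : ∀ x : M, TangentSpace 𝓘(ℝ, E) x →L[ℝ] TangentSpace 𝓘(ℝ, E) x →L[ℝ] ℝ}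
    (hQ : ContField Λ Q) (hPD : ∀ x ∈ Λ, PD (fun v w => Q x v w)) {a : ℝ} (ha : 1 < a) :
    ∃ g : ContMDiffRiemannianMetric 𝓘(ℝ, E) ∞ E (fun x : M ↦ TangentSpace 𝓘(ℝ, E) x),
      ∀ x ∈ Λ, ∀ v, g.inner x v v ≤ a * Q x v v ∧ Q x v v ≤ a * g.inner x v v := by
  classical
  let t : ∀ x : M, Set (TangentSpace 𝓘(ℝ, E) x →L[ℝ] TangentSpace 𝓘(ℝ, E) x →L[ℝ] ℝ) :=
    fun x => {B | (∀ v w, B v w = B w v) ∧ (∀ v, v ≠ 0 → 0 < B v v) ∧
      (x ∈ Λ → ∀ v, B v v ≤ a * Q x v v ∧ Q x v v ≤ a * B v v)}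
  have ht : ∀ x, Convex ℝ (t x) := by
    intro x B₁ h₁ B₂ h₂ r s hr hs hrs
    have happ : ∀ v w, (r • B₁ + s • B₂) v w = r * B₁ v w + s * B₂ v w := fun v w => by simp
    refine ⟨fun v w => ?_, fun v hv => ?_, fun hx v => ⟨?_, ?_⟩⟩
    · rw [happ, happ, h₁.1 v w, h₂.1 v w]
    · rw [happ]
      have p1 := h₁.2.1 v hv
      have p2 := h₂.2.1 v hv
      rcases hr.eq_or_lt with h0 | h0
      · have : s = 1 := by linarith
        rw [← h0, this]; linarith
      · have : 0 < r * B₁ v v := by positivity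
        have : 0 ≤ s * B₂ v v := by positivity
        linarith
    · rw [happ]
      have p1 := (h₁.2.2 hx v).1
      have p2 := (h₂.2.2 hx v).1
      calc r * B₁ v v + s * B₂ v v ≤ r * (a * Q x v v) + s * (a * Q x v v) := by gcongr
        _ = (r + s) * (a * Q x v v) := by ring
        _ = a * Q x v v := by rw [hrs, one_mul]
    · rw [happ]
      have p1 := (h₁.2.2 hx v).2
      have p2 := (h₂.2.2 hx v).2
      calc Q x v v = (r + s) * Q x v v := by rw [hrs, one_mul]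
        _ = r * Q x v v + s * Q x v v := by ring
        _ ≤ r * (a * B₁ v v) + s * (a * B₂ v v) := by gcongr
        _ = a * (r * B₁ v v + s * B₂ v v) := by ring
  obtain ⟨s, hs⟩ := exists_contMDiffSection_forall_mem_convex_of_local 𝓘(ℝ, E) (n := ⊤)
    (F_fiber := E →L[ℝ] E →L[ℝ] ℝ)
    (fun x : M ↦ TangentSpace 𝓘(ℝ, E) x →L[ℝ] TangentSpace 𝓘(ℝ, E) x →L[ℝ] ℝ) t ht (by
      intro x₀
      have hsrc : (chartAt E x₀).source ∈ 𝓝 x₀ :=
        (chartAt E x₀).open_source.mem_nhds (mem_chart_source E x₀)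
      -- the local section is in the convex set as soon as it is comparable to `Q`
      have hmem : ∀ (B : E →L[ℝ] E →L[ℝ] ℝ), PD (fun v w => B v w) → ∀ y,
          y ∈ (chartAt E x₀).source → (y ∈ Λ → ∀ v, coordForm x₀ Q y v v ≤ a * B v v ∧
            B v v ≤ a * coordForm x₀ Q y v v) → locForm x₀ B y ∈ t y := by
        intro B hB y hy hc
        refine ⟨fun v w => ?_, fun v hv => ?_, fun hyΛ v => ?_⟩
        · rw [locForm_apply' hy, locForm_apply' hy]; exact hB.symm _ _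
        · rw [locForm_apply' hy]
          exact hB.pos _ (by simpa using hv)
        · have h1 := hc hyΛ ((tequiv x₀ y hy).symm v)
          rw [coordForm_apply' hy, ContinuousLinearEquiv.apply_symm_apply,
            ← locForm_apply' hy] at h1
          exact ⟨h1.2, h1.1⟩
      by_cases hx₀ : x₀ ∈ Λ
      · have hB : PD (fun v w => coordForm x₀ Q x₀ v w) := by
          have h1 := (hPD x₀ hx₀).comap
            (tequiv x₀ x₀ (mem_chart_source E x₀)).toLinearEquiv.toLinearMap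
            (tequiv x₀ x₀ (mem_chart_source E x₀)).injective
          simp only [coordForm_apply' (mem_chart_source E x₀)]
          exact h1
        have hev := eventually_close (contField_iff.mp hQ x₀ hx₀) hB ha
        rw [eventually_nhdsWithin_iff] at hev
        refine ⟨_, Filter.inter_mem hsrc hev, locForm x₀ (coordForm x₀ Q x₀), ?_, ?_⟩
        · exact (contMDiffOn_locForm x₀ _).mono Set.inter_subset_left
        · rintro y ⟨hy, hy2⟩
          exact hmem _ hB y hy hy2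
      · obtain ⟨B, hB⟩ := exists_pd (E := E)
        refine ⟨_, Filter.inter_mem hsrc (hΛ.isOpen_compl.mem_nhds hx₀), locForm x₀ B, ?_, ?_⟩
        · exact (contMDiffOn_locForm x₀ _).mono Set.inter_subset_left
        · rintro y ⟨hy, hy2⟩
          exact hmem _ hB y hy (fun h => absurd h hy2))
  refine ⟨⟨fun x => s x, fun x => (hs x).1, fun x => (hs x).2.1, fun x => ?_, s.contMDiff⟩,
    fun x hx => (hs x).2.2 hx⟩
  have hgen : ∀ B : E →L[ℝ] E →L[ℝ] ℝ, (∀ v w, B v w = B w v) → (∀ v, v ≠ 0 → 0 < B v v) →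
      Bornology.IsVonNBounded ℝ {v : E | B v v < 1} := fun B h1 h2 =>
    isVonNBounded_of_pd B ⟨fun u v w => by simp, fun c u w => by simp, h1, h2⟩
  exact hgen (s x) (hs x).1 (hs x).2.1

end Pool.Agent.Lib.MP_3d2465_an
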